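import Mathlib

set_option autoImplicit false

namespace Pool.Agent.Form3

/-- group classes as in the frozen statement -/
abbrev GClass : Type 1 := ∀ (H : Type) [Group H], Prop

/-- `F` is a subformation of `form(G)`, in the wording of the frozen statement. -/
def IsSub (G : Type) [Group G] (F : GClass) : Prop :=
  (∀ (H : Type) [Group H], F H → ∃ n : ℕ, ∃ S : Subgroup (Fin n → G),
      (∀ (i : Fin n) (g : G), ∃ s ∈ S, s i = g) ∧
      ∃ f : S →* H, Function.Surjective f) ∧
  (∀ (H K : Type) [Group H] [Group K] (f : H →* K),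
      Function.Surjective f → F H → F K) ∧
  (∀ (H : Type) [Group H] (N1 N2 : Subgroup H) [N1.Normal] [N2.Normal],
      F (H ⧸ N1) → F (H ⧸ N2) → F (H ⧸ (N1 ⊓ N2)))

section closure

variable {G : Type} [Group G] {F : GClass}

lemma IsSub.surj (hF : IsSub G F) {H K : Type} [Group H] [Group K] (f : H →* K)
    (hf : Function.Surjective f) (h : F H) : F K := hF.2.1 H K f hf h

lemma IsSub.iso (hF : IsSub G F) {H K : Type} [Group H] [Group K] (e : H ≃* K)
    (h : F H) : F K := hF.2.1 H K e.toMonoidHom e.surjective h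

lemma IsSub.quot_of_eq (hF : IsSub G F) {H : Type} [Group H] (N M : Subgroup H) [N.Normal]
    [M.Normal] (e : N = M) (h : F (H ⧸ N)) : F (H ⧸ M) :=
  hF.iso (QuotientGroup.quotientMulEquivOfEq e) h

lemma IsSub.fam (hF : IsSub G F) {H : Type} [Group H] {ι : Type*} (s : Finset ι)
    (hs : s.Nonempty) (N : ι → Subgroup H) [hN : ∀ i, (N i).Normal]
    (h : ∀ i ∈ s, F (H ⧸ N i)) :
    ∀ (M : Subgroup H) [M.Normal], M = ⨅ i ∈ s, N i → F (H ⧸ M) := by
  classical
  induction hs using Finset.Nonempty.cons_induction with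
  | singleton a =>
    intro M _ hM
    have hM' : N a = M := by simp [hM]
    exact hF.quot_of_eq _ _ hM' (h a (by simp))
  | cons a s has hs ih =>
    intro M _ hM
    have : (⨅ i ∈ s, N i).Normal :=
      Subgroup.normal_iInf_normal (fun i => Subgroup.normal_iInf_normal (fun _ => hN i))
    have h1 := ih (fun i hi => h i (by simp [hi])) (⨅ i ∈ s, N i) rfl
    have h2 := h a (by simp)
    have h3 := hF.2.2 H (N a) (⨅ i ∈ s, N i) h2 h1
    refine hF.quot_of_eq _ _ ?_ h3
    rw [hM, Finset.cons_eq_insert, Finset.iInf_insert]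

/-- a finite (possibly empty up to adding the trivial quotient) family of quotients separating
points -/
lemma IsSub.fam_hom (hF : IsSub G F) {H : Type} [Group H] {ι : Type*} (s : Finset ι)
    (hs : s.Nonempty) (Q : ι → Type) [∀ i, Group (Q i)] (q : ∀ i, H →* Q i)
    (hq : ∀ i, Function.Surjective (q i))
    (h : ∀ i ∈ s, F (Q i)) (hbot : ∀ x : H, (∀ i ∈ s, q i x = 1) → x = 1) : F H := by
  have h1 := hF.fam s hs (fun i => (q i).ker)
    (fun i hi => hF.iso (QuotientGroup.quotientKerEquivOfSurjective (q i) (hq i)).symm (h i hi))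
    ⊥ (by
      symm
      rw [eq_bot_iff]
      intro x hx
      rw [Subgroup.mem_bot]
      apply hbot
      intro i hi
      simp only [Subgroup.mem_iInf] at hx
      exact hx i hi)
  exact hF.iso (QuotientGroup.quotientBot) h1

/-- every member of `form(G)` is in every formation containing `G`. -/
lemma IsSub.of_generator (hF : IsSub G F) (hG : F G) {H : Type} [Group H] {n : ℕ}
    (S : Subgroup (Fin n → G)) (hS : ∀ (i : Fin n) (g : G), ∃ s ∈ S, s i = g)
    (f : S →* H) (hf : Function.Surjective f) : F H := by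
  rcases Nat.eq_zero_or_pos n with rfl | hn
  · have : Subsingleton H := hf.subsingleton
    exact hF.surj (1 : G →* H) (fun x => ⟨1, Subsingleton.elim _ _⟩) hG
  · refine hF.surj f hf ?_
    have : Nonempty (Fin n) := ⟨⟨0, hn⟩⟩
    refine hF.fam_hom (Finset.univ : Finset (Fin n)) Finset.univ_nonempty (fun _ => G)
      (fun i => (Pi.evalMonoidHom (fun _ : Fin n => G) i).comp S.subtype) ?_ (fun _ _ => hG) ?_
    · intro i g
      obtain ⟨s, hs, hsi⟩ := hS i g
      exact ⟨⟨s, hs⟩, hsi⟩
    · intro x hx
      ext i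
      exact hx i (Finset.mem_univ i)

end closure

/-- abelian members are determined by the cyclic ones -/
lemma abelian_case {G : Type} [Group G] {F F' : GClass} (hF : IsSub G F) (hF' : IsSub G F')
    (B : Type) [CommGroup B] [Finite B] (N : ℕ) (hN : 0 < N) (hB : ∀ x : B, x ^ N = 1)
    (hcyc : ∀ d : ℕ, d ≤ N → (F (Multiplicative (ZMod d)) → F' (Multiplicative (ZMod d))))
    (h : F B) : F' B := by
  classical
  obtain ⟨ι, hι, n, hn, ⟨e⟩⟩ := CommGroup.equiv_prod_multiplicative_zmod_of_finite B
  have htriv : F' (Multiplicative (ZMod 1)) := by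
    apply hcyc 1 hN
    exact hF.surj (1 : B →* Multiplicative (ZMod 1)) (fun x => ⟨1, Subsingleton.elim _ _⟩) h
  have hle : ∀ i, n i ≤ N := by
    intro i
    have h1 := hB (e.symm (Pi.mulSingle i (Multiplicative.ofAdd 1)))
    rw [← map_pow, ← Pi.mulSingle_pow, ← ofAdd_nsmul] at h1
    have h2 : Pi.mulSingle (M := fun i => Multiplicative (ZMod (n i))) i
        (Multiplicative.ofAdd (N • (1 : ZMod (n i)))) = 1 := by
      rw [← e.symm.map_eq_one_iff]; exact h1
    rw [Pi.mulSingle_eq_one_iff] at h2
    have h3 : ((N : ℕ) : ZMod (n i)) = 0 := by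
      have := congrArg Multiplicative.toAdd h2
      simpa using this
    exact Nat.le_of_dvd hN ((ZMod.natCast_eq_zero_iff _ _).1 h3)
  let m : Option ι → ℕ := fun o => Option.elim o 1 n
  let q : ∀ o : Option ι, B →* Multiplicative (ZMod (m o)) := fun o =>
    match o with
    | none => 1
    | some i => (Pi.evalMonoidHom (fun i => Multiplicative (ZMod (n i))) i).comp e.toMonoidHom
  refine hF'.fam_hom (Finset.univ : Finset (Option ι)) Finset.univ_nonempty
    (fun o => Multiplicative (ZMod (m o))) q ?_ ?_ ?_
  · intro o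
    cases o with
    | none => exact fun x => ⟨1, Subsingleton.elim (α := Multiplicative (ZMod 1)) _ _⟩
    | some i =>
      intro x
      refine ⟨e.symm (Pi.mulSingle i x), ?_⟩
      change (e (e.symm (Pi.mulSingle i x))) i = x
      rw [MulEquiv.apply_symm_apply]
      exact Pi.mulSingle_eq_same (M := fun i => Multiplicative (ZMod (n i))) i x
  · intro o _
    cases o with
    | none => exact htriv
    | some i =>
      refine hcyc (n i) (hle i) ?_
      refine hF.surj ((Pi.evalMonoidHom (fun i => Multiplicative (ZMod (n i))) i).comp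
        e.toMonoidHom) ?_ h
      intro x
      refine ⟨e.symm (Pi.mulSingle i x), ?_⟩
      simp
  · intro x hx
    apply e.injective
    rw [map_one]
    ext i
    have := hx (some i) (Finset.mem_univ _)
    exact this

end Pool.Agent.Form3
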