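import Pool.Agent.Form3.Struct

set_option autoImplicit false
set_option linter.unusedSectionVars false

namespace Pool.Agent.Form3

open scoped commutatorElement

lemma exists_factor {S H Q : Type} [Group S] [Group H] [Group Q] (f : S →* H)
    (hf : Function.Surjective f) (g : S →* Q) (hk : f.ker ≤ g.ker) :
    ∃ θ : H →* Q, ∀ s, θ (f s) = g s :=
  ⟨f.liftOfSurjective hf ⟨g, hk⟩, fun s => by simp⟩

section

variable {G : Type} [Group G] [Finite G] {G1 G2 : Subgroup G} (h : Hyp G G1 G2)
variable {S : Type} [Group S] [Finite S] {ι : Type} [Finite ι] (φ : ι → S →* G)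
variable (hφ : ∀ i, Function.Surjective (φ i)) (hinj : ∀ x : S, (∀ i, φ i x = 1) → x = 1)
include h hφ hinj

lemma caseA {F : GClass} (hF : IsSub G F)
    (α : G ≃* G) (hα1 : ∀ z ∈ G1, α z = z⁻¹) (hα2 : ∀ g, g⁻¹ * α g ∈ G2)
    (h2 : ∀ z ∈ G1, z * z = 1 → z = 1)
    {H : Type} [Group H] (f : S →* H) (hf : Function.Surjective f) (hH : F H)
    (i : ι) (hi : f.ker ⊓ K G1 φ i = ⊥) : F G := by
  have n1 := h.normal1
  have n2 := h.normal2
  have nK := K_normal h φ i
  have hKG2 : ∀ k ∈ K G1 φ i, φ i k ∈ G2 := by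
    intro k hk
    rw [← map_K h φ hφ i]
    exact ⟨k, hk, rfl⟩
  let e0 : K G1 φ i →* G2 := ((φ i).comp (K G1 φ i).subtype).codRestrict G2
    (fun k => hKG2 k.1 k.2)
  have he0 : ∀ k : K G1 φ i, (e0 k : G) = φ i k := fun _ => rfl
  have hbij : Function.Bijective e0 := by
    constructor
    · rw [injective_iff_map_eq_one]
      intro k hk
      have : φ i k = 1 := by rw [← he0, hk]; rfl
      exact Subtype.ext (K_inj h φ hφ hinj i k.2 this)
    · intro x
      have hx : (x : G) ∈ (K G1 φ i).map (φ i) := by rw [map_K h φ hφ i]; exact x.2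
      obtain ⟨k, hk, hkx⟩ := hx
      exact ⟨⟨k, hk⟩, Subtype.ext hkx⟩
  let e : K G1 φ i ≃* G2 := MulEquiv.ofBijective e0 hbij
  have he : ∀ x : G2, φ i (e.symm x : S) = x := by
    intro x
    rw [← he0]
    exact congrArg Subtype.val (e.apply_symm_apply x)
  let γ : G2 →* H := (f.comp (K G1 φ i).subtype).comp e.symm.toMonoidHom
  have hγ : ∀ x : G2, γ x = f (e.symm x : S) := fun _ => rfl
  have hγi : Function.Injective γ := by
    rw [injective_iff_map_eq_one]
    intro x hx
    have h1 : ((e.symm x : K G1 φ i) : S) ∈ f.ker ⊓ K G1 φ i := ⟨hx, (e.symm x).2⟩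
    rw [hi, Subgroup.mem_bot] at h1
    have h2 : e.symm x = 1 := Subtype.ext h1
    exact (e.symm.map_eq_one_iff).1 h2
  -- `N` centralises `K i`
  have hker : f.ker ≤ ((QuotientGroup.mk' G1).comp (φ i)).ker := by
    intro x hx
    rw [MonoidHom.mem_ker, MonoidHom.comp_apply, QuotientGroup.mk'_apply,
      QuotientGroup.eq_one_iff]
    apply h.cen
    intro y hy
    rw [← map_K h φ hφ i] at hy
    obtain ⟨k, hk, rfl⟩ := hy
    have h1 : ⁅x, k⁆ ∈ f.ker ⊓ K G1 φ i := by
      refine ⟨?_, ?_⟩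
      · change f ⁅x, k⁆ = 1
        rw [map_commutatorElement, (MonoidHom.mem_ker).1 hx]
        exact commutatorElement_one_left _
      · rw [commutatorElement_def]
        exact (K G1 φ i).mul_mem (nK.conj_mem k hk x) ((K G1 φ i).inv_mem hk)
    rw [hi, Subgroup.mem_bot] at h1
    rw [← map_commutatorElement, h1, map_one]
    exact G1.one_mem
  obtain ⟨θ, hθ⟩ := exists_factor f hf ((QuotientGroup.mk' G1).comp (φ i)) hker
  have hθ' : ∀ s, θ (f s) = (φ i s : G ⧸ G1) := hθ
  refine twist hF G1 G2 α hα1 hα2 h2 hH γ hγi θ ?_ ?_ ?_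
  · intro q
    obtain ⟨g, rfl⟩ := QuotientGroup.mk_surjective q
    obtain ⟨s, rfl⟩ := hφ i g
    exact ⟨f s, hθ' s⟩
  · intro x
    rw [hγ, hθ', he]
  · intro a g hag x y hxy
    obtain ⟨s, rfl⟩ := hf a
    rw [hθ'] at hag
    have h1 : (φ i s)⁻¹ * g ∈ G1 := QuotientGroup.eq.1 hag
    obtain ⟨z, hz, hzg⟩ : ∃ z ∈ G1, g = φ i s * z := ⟨_, h1, by group⟩
    have h3 : (y : G) = φ i (s * e.symm x * s⁻¹) := by
      rw [hxy, map_mul, map_mul, map_inv, he, hzg]
      have := h.cent z hz (x : G)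
      rw [mul_inv_rev]
      calc φ i s * z * x * (z⁻¹ * (φ i s)⁻¹) = φ i s * (z * x) * z⁻¹ * (φ i s)⁻¹ := by group
        _ = φ i s * (x * z) * z⁻¹ * (φ i s)⁻¹ := by rw [this]
        _ = _ := by group
    have hmem : s * e.symm x * s⁻¹ ∈ K G1 φ i := nK.conj_mem _ (e.symm x).2 s
    have h4 : e.symm y = ⟨_, hmem⟩ := by
      rw [MulEquiv.symm_apply_eq]
      apply Subtype.ext
      rw [h3]
      rfl
    rw [hγ, hγ, h4, ← map_inv, ← map_mul, ← map_mul]

lemma caseB {F F' : GClass} (hF : IsSub G F) (hF' : IsSub G F') [G1.Normal]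
    (hQ : F (G ⧸ G1) → F' (G ⧸ G1))
    (hcyc : ∀ d : ℕ, d ≤ Nat.card G →
      (F (Multiplicative (ZMod d)) → F' (Multiplicative (ZMod d))))
    {H : Type} [Group H] (f : S →* H) (hf : Function.Surjective f) (hH : F H)
    (hi : ∀ i : ι, f.ker ⊓ K G1 φ i ≠ ⊥) : F' H := by
  classical
  cases nonempty_fintype ι
  have n2 := h.normal2
  have : Finite H := Finite.of_surjective f hf
  -- the alternative at each coordinate
  have halt : ∀ i : ι, K G1 φ i ≤ f.ker ∨
      (f.ker ≤ M G1 φ i ∧ ∀ k ∈ K G1 φ i, φ i k ∈ G1 → k ∈ f.ker) := by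
    intro i
    have nK := K_normal h φ i
    have nI : (f.ker ⊓ K G1 φ i).Normal := inferInstance
    have nU : ((f.ker ⊓ K G1 φ i).map (φ i)).Normal := Subgroup.Normal.map nI (φ i) (hφ i)
    have hle : (f.ker ⊓ K G1 φ i).map (φ i) ≤ G2 := by
      rw [← map_K h φ hφ i]
      exact Subgroup.map_mono inf_le_right
    rcases h.nsub _ nU hle with h0 | h0 | h0
    · exfalso
      apply hi i
      rw [eq_bot_iff]
      intro x hx
      rw [Subgroup.mem_bot]
      apply K_inj h φ hφ hinj i hx.2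
      have : φ i x ∈ (f.ker ⊓ K G1 φ i).map (φ i) := ⟨x, hx, rfl⟩
      rw [h0, Subgroup.mem_bot] at this
      exact this
    · right
      constructor
      · intro x hx
        apply h.cen
        intro y hy
        rw [← map_K h φ hφ i] at hy
        obtain ⟨k, hk, rfl⟩ := hy
        have h1 : ⁅x, k⁆ ∈ f.ker ⊓ K G1 φ i := by
          refine ⟨?_, ?_⟩
          · change f ⁅x, k⁆ = 1
            rw [map_commutatorElement, (MonoidHom.mem_ker).1 hx]
            exact commutatorElement_one_left _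
          · rw [commutatorElement_def]
            exact (K G1 φ i).mul_mem (nK.conj_mem k hk x) ((K G1 φ i).inv_mem hk)
        rw [← map_commutatorElement, ← h0]
        exact ⟨_, h1, rfl⟩
      · intro k hk hkG
        rw [← h0] at hkG
        obtain ⟨k', hk', hkk⟩ := hkG
        have : k * k'⁻¹ = 1 := by
          apply K_inj h φ hφ hinj i ((K G1 φ i).mul_mem hk ((K G1 φ i).inv_mem hk'.2))
          rw [map_mul, map_inv, hkk, mul_inv_cancel]
        have : k = k' := mul_inv_eq_one.1 this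
        rw [this]; exact hk'.1
    · left
      intro k hk
      have : φ i k ∈ (f.ker ⊓ K G1 φ i).map (φ i) := by
        rw [h0, ← map_K h φ hφ i]; exact ⟨k, hk, rfl⟩
      obtain ⟨k', hk', hkk⟩ := this
      have : k * k'⁻¹ = 1 := by
        apply K_inj h φ hφ hinj i ((K G1 φ i).mul_mem hk ((K G1 φ i).inv_mem hk'.2))
        rw [map_mul, map_inv, hkk, mul_inv_cancel]
      have : k = k' := mul_inv_eq_one.1 this
      rw [this]; exact hk'.1
  -- the quotients
  have hth : ∀ i : ι, ¬ K G1 φ i ≤ f.ker → ∃ θ : H →* G ⧸ G1,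
      Function.Surjective θ ∧ ∀ s, θ (f s) = (φ i s : G ⧸ G1) := by
    intro i hKi
    have h1 : f.ker ≤ ((QuotientGroup.mk' G1).comp (φ i)).ker := by
      intro x hx
      rw [MonoidHom.mem_ker, MonoidHom.comp_apply, QuotientGroup.mk'_apply,
        QuotientGroup.eq_one_iff]
      exact ((halt i).resolve_left hKi).1 hx
    obtain ⟨θ, hθ⟩ := exists_factor f hf ((QuotientGroup.mk' G1).comp (φ i)) h1
    refine ⟨θ, ?_, hθ⟩
    intro q
    obtain ⟨g, rfl⟩ := QuotientGroup.mk_surjective q
    obtain ⟨s, rfl⟩ := hφ i g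
    exact ⟨f s, hθ s⟩
  -- abelianization
  have hab : F' (Abelianization H) := by
    have hFab : F (Abelianization H) :=
      hF.surj Abelianization.of (QuotientGroup.mk_surjective) hH
    refine abelian_case hF hF' (Abelianization H) (Nat.card G) Nat.card_pos ?_ hcyc hFab
    intro x
    obtain ⟨y, rfl⟩ := QuotientGroup.mk_surjective x
    obtain ⟨s, rfl⟩ := hf y
    have : s ^ Nat.card G = 1 := by
      apply hinj
      intro i
      rw [map_pow, pow_card_eq_one']
    change (Abelianization.of (f s)) ^ Nat.card G = 1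
    rw [← map_pow, ← map_pow, this, map_one, map_one]
  -- the intersection of the kernels is trivial
  choose θ hθs hθ using hth
  let N : Option ι → Subgroup H := fun o => match o with
    | none => commutator H
    | some i => if hKi : K G1 φ i ≤ f.ker then ⊤ else (θ i hKi).ker
  have hNn : ∀ o, (N o).Normal := by
    intro o
    cases o with
    | none => exact (inferInstance : (commutator H).Normal)
    | some i =>
      by_cases hKi : K G1 φ i ≤ f.ker
      · have : N (some i) = ⊤ := by simp [N, hKi]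
        rw [this]; infer_instance
      · have : N (some i) = (θ i hKi).ker := by simp [N, hKi]
        rw [this]; infer_instance
  let s : Finset (Option ι) := Finset.univ.filter (fun o => match o with
    | none => True
    | some i => ¬ K G1 φ i ≤ f.ker)
  have hs : s.Nonempty := ⟨none, by simp [s]⟩
  have h1 := hF'.fam s hs N (hN := hNn) ?_ ⊥ ?_
  · exact hF'.iso (QuotientGroup.quotientBot) h1
  · intro o ho
    cases o with
    | none => exact hab
    | some i =>
      have hKi : ¬ K G1 φ i ≤ f.ker := by simpa [s] using ho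
      have hsurj := hθs i hKi
      have h2 : F' (G ⧸ G1) := hQ (hF.surj _ hsurj hH)
      have h3 : F' (H ⧸ (θ i hKi).ker) :=
        hF'.iso (QuotientGroup.quotientKerEquivOfSurjective _ hsurj).symm h2
      have h4 : (θ i hKi).ker = N (some i) := by simp [N, hKi]
      have := hNn (some i)
      exact hF'.quot_of_eq _ _ h4 h3
  · symm
    rw [eq_bot_iff]
    intro y hy
    rw [Subgroup.mem_bot]
    simp only [Subgroup.mem_iInf] at hy
    have hyc : y ∈ commutator H := hy none (by simp [s])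
    have hyi : ∀ i, ∀ hKi : ¬ K G1 φ i ≤ f.ker, (θ i hKi) y = 1 := by
      intro i hKi
      have h5 := hy (some i) (by simp [s, hKi])
      have h6 : N (some i) = (θ i hKi).ker := by simp [N, hKi]
      rw [h6] at h5
      exact h5
    -- lift `y` to `commutator S`
    have h7 : commutator H = (commutator S).map f := by
      rw [commutator_def, commutator_def, Subgroup.map_commutator, ← MonoidHom.range_eq_map,
        MonoidHom.range_eq_top.2 hf]
    rw [h7] at hyc
    obtain ⟨x, hx, rfl⟩ := hyc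
    have h8 : x ∈ f.ker := by
      refine comm_mem h φ hφ hinj f.ker Finset.univ x hx (fun i hi => absurd (Finset.mem_univ i) hi) ?_
      intro i _
      by_cases hKi : K G1 φ i ≤ f.ker
      · exact Or.inl hKi
      · refine Or.inr ⟨?_, ((halt i).resolve_left hKi).2⟩
        have := hyi i hKi
        rw [hθ i hKi x] at this
        exact (QuotientGroup.eq_one_iff _).1 this
    exact h8

end

theorem main_imp {G : Type} [Group G] [Finite G] {G1 G2 : Subgroup G} (h : Hyp G G1 G2)
    [G1.Normal] (α : G ≃* G) (hα1 : ∀ z ∈ G1, α z = z⁻¹) (hα2 : ∀ g, g⁻¹ * α g ∈ G2)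
    (h2 : ∀ z ∈ G1, z * z = 1 → z = 1)
    {F F' : GClass} (hF : IsSub G F) (hF' : IsSub G F')
    (hG : F G → F' G) (hQ : F (G ⧸ G1) → F' (G ⧸ G1))
    (hcyc : ∀ d : ℕ, d ≤ Nat.card G →
      (F (Multiplicative (ZMod d)) → F' (Multiplicative (ZMod d))))
    (H : Type) [Group H] (hH : F H) : F' H := by
  obtain ⟨n, S, hS, f, hf⟩ := hF.1 H hH
  let φ : Fin n → S →* G := fun i => (Pi.evalMonoidHom (fun _ : Fin n => G) i).comp S.subtype
  have hφ : ∀ i, Function.Surjective (φ i) := by
    intro i g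
    obtain ⟨s, hs, hsi⟩ := hS i g
    exact ⟨⟨s, hs⟩, hsi⟩
  have hinj : ∀ x : S, (∀ i, φ i x = 1) → x = 1 := by
    intro x hx
    ext i
    exact hx i
  by_cases hcase : ∃ i, f.ker ⊓ K G1 φ i = ⊥
  · obtain ⟨i, hi⟩ := hcase
    exact hF'.of_generator (hG (caseA h φ hφ hinj hF α hα1 hα2 h2 f hf hH i hi)) S hS f hf
  · push Not at hcase
    exact caseB h φ hφ hinj hF hF' hQ hcyc f hf hH hcase

theorem finite_sub {G : Type} [Group G] [Finite G] {G1 G2 : Subgroup G} (h : Hyp G G1 G2)
    (α : G ≃* G) (hα1 : ∀ z ∈ G1, α z = z⁻¹) (hα2 : ∀ g, g⁻¹ * α g ∈ G2)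
    (h2 : ∀ z ∈ G1, z * z = 1 → z = 1) :
    {F : GClass | IsSub G F}.Finite := by
  have n1 := h.normal1
  let Φ : GClass → Prop × Prop × (Fin (Nat.card G + 1) → Prop) := fun F =>
    (F G, F (G ⧸ G1), fun d => F (Multiplicative (ZMod d)))
  refine Set.Finite.of_injOn (f := Φ) (t := Set.univ) (fun _ _ => Set.mem_univ _) ?_
    Set.finite_univ
  intro F hF F' hF' hFF
  have e1 : F G = F' G := congrArg Prod.fst hFF
  have e2 : F (G ⧸ G1) = F' (G ⧸ G1) := congrArg (fun p => p.2.1) hFF
  have e3 : ∀ d : ℕ, d ≤ Nat.card G →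
      F (Multiplicative (ZMod d)) = F' (Multiplicative (ZMod d)) := by
    intro d hd
    exact congrFun (congrArg (fun p => p.2.2) hFF) ⟨d, Nat.lt_succ_of_le hd⟩
  funext H inst
  apply propext
  exact ⟨main_imp h α hα1 hα2 h2 hF hF' e1.mp e2.mp (fun d hd => (e3 d hd).mp) H,
    main_imp h α hα1 hα2 h2 hF' hF e1.mpr e2.mpr (fun d hd => (e3 d hd).mpr) H⟩

end Pool.Agent.Form3
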