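import Mathlib

set_option autoImplicit false

namespace Pool.Agent.Form3

open scoped commutatorElement

lemma mult_of_univ {G : Type} [Group G] [Finite G] {G1 G2 : Subgroup G} [G2.Normal]
    (cent : ∀ z ∈ G1, ∀ g : G, g * z = z * g)
    (perfect : ⁅G2, G2⁆ = G2) (comm : commutator G = G2) (cyc : IsCyclic (G ⧸ G2))
    (exp3 : ∀ z ∈ G1, z ^ 3 = 1)
    (U : ∀ (E : Type) [Group E] [Finite E] (π : E →* G), commutator E = ⊤ → π.range = G2 →
      (∀ x ∈ π.ker, ∀ y : E, y * x = x * y) → (∀ x ∈ π.ker, x ^ 3 = 1) →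
      Function.Injective π)
    (S : Type) [Group S] [Finite S] (φ ψ : S →* G) (hφ : Function.Surjective φ)
    (hφψ : G1.comap φ = G1.comap ψ) :
    ∀ x ∈ commutator S, φ x = 1 → ψ x = 1 := by
  intro x hx hx1
  let D : Subgroup (G × G) := (φ.prod ψ).range
  have hDf : Finite D := inferInstance
  let p : D →* G := (MonoidHom.fst G G).comp D.subtype
  have hp : Function.Surjective p := by
    intro g
    obtain ⟨s, rfl⟩ := hφ g
    exact ⟨⟨(φ s, ψ s), ⟨s, rfl⟩⟩, rfl⟩
  have hker : ∀ d : D, p d = 1 → d.1.2 ∈ G1 := by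
    rintro ⟨d, ⟨s, rfl⟩⟩ hd
    have h1 : φ s = 1 := hd
    have h2 : s ∈ G1.comap φ := by
      rw [Subgroup.mem_comap, h1]; exact G1.one_mem
    rw [hφψ] at h2
    exact h2
  have hkerc : ∀ d : D, p d = 1 → ∀ e : D, e * d = d * e := by
    intro d hd e
    have h1 := hker d hd
    have h2 : d.1.1 = 1 := hd
    apply Subtype.ext
    apply Prod.ext
    · change e.1.1 * d.1.1 = d.1.1 * e.1.1
      rw [h2]; simp
    · exact cent _ h1 _
  have hker3 : ∀ d : D, p d = 1 → d ^ 3 = 1 := by
    intro d hd
    have h1 := hker d hd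
    have h2 : d.1.1 = 1 := hd
    apply Subtype.ext
    apply Prod.ext
    · change d.1.1 ^ 3 = 1
      rw [h2]; simp
    · exact exp3 _ h1
  have hpD' : (commutator D).map p = G2 := by
    rw [commutator_def, Subgroup.map_commutator, ← MonoidHom.range_eq_map,
      MonoidHom.range_eq_top.2 hp, ← comm, commutator_def]
  let D2 : Subgroup D := ⁅commutator D, commutator D⁆
  have hD2n : D2.Normal := inferInstance
  have hpD2 : D2.map p = G2 := by
    change (⁅commutator D, commutator D⁆).map p = G2
    rw [Subgroup.map_commutator, hpD', perfect]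
  have hle : commutator D ≤ D2 := by
    have hD2ker : D2 ≤ ((QuotientGroup.mk' G2).comp p).ker := by
      intro d hd
      rw [MonoidHom.mem_ker, MonoidHom.comp_apply, QuotientGroup.mk'_apply,
        QuotientGroup.eq_one_iff, ← hpD2]
      exact ⟨d, hd, rfl⟩
    let f : D ⧸ D2 →* G ⧸ G2 := QuotientGroup.lift D2 ((QuotientGroup.mk' G2).comp p)
      (fun d hd => hD2ker hd)
    have hfker : f.ker ≤ Subgroup.center (D ⧸ D2) := by
      intro q hq
      obtain ⟨d, rfl⟩ := QuotientGroup.mk_surjective q
      have h1 : (p d : G ⧸ G2) = 1 := hq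
      rw [QuotientGroup.eq_one_iff, ← hpD2] at h1
      obtain ⟨e, he, hed⟩ := h1
      have h2 : p (e⁻¹ * d) = 1 := by rw [map_mul, map_inv, hed, inv_mul_cancel]
      have h3 : (d : D ⧸ D2) = ((e⁻¹ * d : D) : D ⧸ D2) := by
        rw [QuotientGroup.mk_mul, QuotientGroup.mk_inv, (QuotientGroup.eq_one_iff e).2 he]
        simp
      rw [h3, Subgroup.mem_center_iff]
      intro r
      obtain ⟨t, rfl⟩ := QuotientGroup.mk_surjective r
      rw [← QuotientGroup.mk_mul, ← QuotientGroup.mk_mul, hkerc _ h2 t]
    rw [commutator_def, Subgroup.commutator_le]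
    intro a _ b _
    have h4 := (MonoidHom.isMulCommutative_of_isCyclic_of_ker_le_center f hfker).is_comm.comm
      (a : D ⧸ D2) (b : D ⧸ D2)
    rw [← QuotientGroup.eq_one_iff]
    rw [← commutatorElement_eq_one_iff_mul_comm] at h4
    exact h4
  have hEperf : commutator (commutator D) = ⊤ := by
    have : Group.IsPerfect (commutator D) := by
      rw [Subgroup.isPerfect_iff]
      exact le_antisymm (Subgroup.commutator_le_left _ _) hle
    exact this.commutator_eq_top
  have hinj := U (commutator D) (p.comp (commutator D).subtype) hEperf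
    (by rw [MonoidHom.range_comp, Subgroup.range_subtype, hpD'])
    (by
      intro z hz y
      apply Subtype.ext
      exact hkerc z.1 hz y.1)
    (by
      intro z hz
      apply Subtype.ext
      exact hker3 z.1 hz)
  have hd : (φ.prod ψ).rangeRestrict x ∈ commutator D := by
    have : (commutator S).map (φ.prod ψ).rangeRestrict ≤ commutator D := by
      rw [commutator_def, commutator_def, Subgroup.map_commutator]
      exact Subgroup.commutator_mono le_top le_top
    exact this ⟨x, hx, rfl⟩
  have h5 : (⟨_, hd⟩ : commutator D) = 1 := by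
    apply hinj
    rw [map_one]
    exact hx1
  have h6 : (φ.prod ψ).rangeRestrict x = 1 := congrArg Subtype.val h5
  have h7 : (φ.prod ψ) x = 1 := congrArg Subtype.val h6
  exact congrArg Prod.snd h7

end Pool.Agent.Form3
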