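import Pool.Agent.Form3.SL3b
import Pool.Agent.Form3.Finite
import Pool.Agent.Form3.Mult

set_option autoImplicit false

namespace Pool.Agent.Form3

open scoped commutatorElement
open Matrix SemidirectProduct

/-- entrywise action of field automorphisms -/
def act (K : Type) [Field K] : (K ≃+* K) →* MulAut (SpecialLinearGroup (Fin 3) K) where
  toFun τ :=
    { toFun := SpecialLinearGroup.map (τ : K →+* K)
      invFun := SpecialLinearGroup.map (τ.symm : K →+* K)
      left_inv := fun A => by ext i j; simp
      right_inv := fun A => by ext i j; simp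
      map_mul' := map_mul _ }
  map_one' := by ext A i j; rfl
  map_mul' σ τ := by ext A i j; rfl

lemma act_apply {K : Type} [Field K] (τ : K ≃+* K) (A : SpecialLinearGroup (Fin 3) K)
    (i j : Fin 3) : (act K τ A) i j = τ (A i j) := rfl

section

variable (K : Type) [Field K] [Finite K] [CharP K 2] 

/-- Frobenius -/
noncomputable def frob : K ≃+* K := frobeniusEquiv K 2

omit [Finite K] in
lemma frob_apply [Finite K] (x : K) : frob K x = x ^ 2 := by
  simp [frob, frobeniusEquiv_apply, frobenius_def]

/-- the field automorphism `x ↦ x^4` -/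
noncomputable def sig : K ≃+* K := frob K ^ 2

lemma sig_apply (x : K) : sig K x = x ^ 4 := by
  change frob K (frob K x) = x ^ 4
  rw [frob_apply, frob_apply]; ring

lemma sig_cube (hK : Nat.card K = 64) : sig K ^ 3 = 1 := by
  ext x
  change sig K (sig K (sig K x)) = x
  rw [sig_apply, sig_apply, sig_apply, ← pow_mul, ← pow_mul]
  have := Fintype.ofFinite K
  have h := FiniteField.pow_card x
  rw [← Nat.card_eq_fintype_card, hK] at h
  exact h

lemma sig_ne (hK : Nat.card K = 64) : sig K ≠ 1 := by
  intro h
  obtain ⟨ζ, hζ⟩ : IsCyclic Kˣ := inferInstance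
  have h0 : Nat.card Kˣ = 63 := by
    have := Nat.card_eq_card_units_add_one K
    omega
  have h1 : orderOf ζ = 63 := by
    rw [orderOf_eq_card_of_forall_mem_zpowers hζ, h0]
  have h2 : sig K (ζ : K) = ζ := by rw [h]; rfl
  rw [sig_apply] at h2
  have h3 : ζ ^ 3 = 1 := by
    have : ζ ^ 4 = ζ := Units.ext (by simpa using h2)
    calc ζ ^ 3 = ζ ^ 4 * ζ⁻¹ := by group
      _ = 1 := by rw [this]; group
  have h4 := orderOf_dvd_of_pow_eq_one h3
  rw [h1] at h4
  norm_num at h4

lemma sig_order (hK : Nat.card K = 64) : orderOf (sig K) = 3 :=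
  orderOf_eq_prime (sig_cube K hK) (sig_ne K hK)

/-- the cyclic group of field automorphisms -/
noncomputable abbrev CC : Subgroup (K ≃+* K) := Subgroup.zpowers (sig K)

/-- The counterexample `SL₃(64) ⋊ 3`. -/
noncomputable abbrev GG : Type := SpecialLinearGroup (Fin 3) K ⋊[(act K).comp (CC K).subtype] (CC K)

instance : Finite (K ≃+* K) := Finite.of_injective (fun f => (f : K → K)) DFunLike.coe_injective

instance : Finite (GG K) := Finite.of_equiv _ SemidirectProduct.equivProd.symm

/-- `G₁`: the scalars -/
noncomputable def G1 : Subgroup (GG K) := (Subgroup.center (SpecialLinearGroup (Fin 3) K)).map inl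

/-- `G₂ = SL₃(64)` -/
noncomputable def G2 : Subgroup (GG K) := (inl : SpecialLinearGroup (Fin 3) K →* GG K).range

instance : (G2 K).Normal := by
  unfold G2
  rw [range_inl_eq_ker_rightHom]
  infer_instance

lemma G1_le : G1 K ≤ G2 K := by
  rintro _ ⟨x, _, rfl⟩
  exact ⟨x, rfl⟩

lemma act_center (z : SpecialLinearGroup (Fin 3) K)
    (hz : z ∈ Subgroup.center (SpecialLinearGroup (Fin 3) K)) :
    act K (frob K) z = z⁻¹ := by
  obtain ⟨r, hr, hz'⟩ := Matrix.SpecialLinearGroup.mem_center_iff.1 hz
  rw [Fintype.card_fin] at hr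
  rw [eq_inv_iff_mul_eq_one]
  apply Subtype.ext
  change (act K (frob K) z).1 * z.1 = 1
  have h1 : (act K (frob K) z).1 = Matrix.scalar (Fin 3) (r ^ 2) := by
    ext i j
    change (frob K) (z.1 i j) = _
    rw [← hz', frob_apply]
    by_cases hij : i = j
    · subst hij; simp
    · simp [hij]
  have h2 : z.1 = Matrix.scalar (Fin 3) r := hz'.symm
  rw [h1, h2, ← map_mul, ← pow_succ, hr, map_one]

lemma act_CC (z : SpecialLinearGroup (Fin 3) K)
    (hz : z ∈ Subgroup.center (SpecialLinearGroup (Fin 3) K)) (τ : K ≃+* K) (hτ : τ ∈ CC K) :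
    act K τ z = z := by
  obtain ⟨n, rfl⟩ := hτ
  have h1 : act K (sig K) z = z := by
    unfold sig
    rw [pow_two, map_mul, MulAut.mul_apply, act_center K z hz, map_inv, act_center K z hz, inv_inv]
  have h2 : sig K ∈ (MulAction.stabilizer (MulAut (SpecialLinearGroup (Fin 3) K)) z).comap
      (act K) := h1
  exact Subgroup.zpow_mem _ h2 n

lemma cent (z : GG K) (hz : z ∈ G1 K) (g : GG K) : g * z = z * g := by
  obtain ⟨z, hz, rfl⟩ := hz
  apply SemidirectProduct.ext
  · rw [mul_left, mul_left, left_inl, right_inl, map_one, MulAut.one_apply]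
    change g.left * act K g.right.1 z = z * g.left
    rw [act_CC K z hz g.right.1 g.right.2]
    exact Subgroup.mem_center_iff.1 hz _
  · simp

lemma perfect : ⁅G2 K, G2 K⁆ = G2 K := by
  unfold G2
  rw [MonoidHom.range_eq_map, ← Subgroup.map_commutator]
  congr 1
  exact SL3_perfect K

omit [CharP K 2] in
lemma CC_comm [CharP K 2] (a b : CC K) : a * b = b * a := by
  obtain ⟨_, m, rfl⟩ := a
  obtain ⟨_, n, rfl⟩ := b
  apply Subtype.ext
  exact zpow_mul_comm (sig K) m n

lemma comm : commutator (GG K) = G2 K := by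
  apply le_antisymm
  · unfold G2
    rw [range_inl_eq_ker_rightHom, commutator_def, Subgroup.commutator_le]
    intro a _ b _
    rw [MonoidHom.mem_ker, map_commutatorElement, commutatorElement_eq_one_iff_mul_comm]
    exact CC_comm K _ _
  · rw [← perfect K, commutator_def]
    exact Subgroup.commutator_mono le_top le_top

end

end Pool.Agent.Form3
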