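import Pool.Agent.Form3.Group

set_option autoImplicit false
set_option linter.unusedSectionVars false

namespace Pool.Agent.Form3

open scoped commutatorElement
open Matrix SemidirectProduct

section

variable (K : Type) [Field K] [Finite K] [CharP K 2]

omit [CharP K 2] in
lemma card_center (hK : Nat.card K = 64) :
    Nat.card (Subgroup.center (Matrix.SpecialLinearGroup (Fin 3) K)) = 3 := by
  rw [Nat.card_congr (Matrix.SpecialLinearGroup.center_equiv_rootsOfUnity' (0 : Fin 3)).toEquiv]
  rw [Fintype.card_fin]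
  obtain ⟨ζ, hζ⟩ : IsCyclic Kˣ := inferInstance
  have h0 : Nat.card Kˣ = 63 := by
    have := Nat.card_eq_card_units_add_one K
    omega
  have h1 : orderOf ζ = 63 := by
    rw [orderOf_eq_card_of_forall_mem_zpowers hζ, h0]
  have h2 : orderOf (ζ ^ 21) = 3 := by
    rw [orderOf_pow' ζ (by norm_num), h1]
    norm_num
  have h3 : IsPrimitiveRoot (ζ ^ 21) 3 := by
    rw [← h2]; exact IsPrimitiveRoot.orderOf _
  have h4 : IsPrimitiveRoot ((ζ ^ 21 : Kˣ) : K) 3 := IsPrimitiveRoot.coe_units_iff.2 h3
  have h5 := h4.card_rootsOfUnity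
  exact h5

omit [Finite K] in
lemma inl_inj' [Finite K] : Function.Injective (inl : Matrix.SpecialLinearGroup (Fin 3) K →* GG K) :=
  inl_injective

lemma card_G1 (hK : Nat.card K = 64) : Nat.card (G1 K) = 3 := by
  refine Eq.trans ?_ (card_center K hK)
  exact Nat.card_congr
    (Subgroup.equivMapOfInjective _ _ (inl_inj' K)).toEquiv.symm

lemma card_CC (hK : Nat.card K = 64) : Nat.card (CC K) = 3 := by
  rw [Nat.card_zpowers, sig_order K hK]

lemma G2_eq : G2 K = (rightHom : GG K →* CC K).ker := range_inl_eq_ker_rightHom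

noncomputable def quotEquiv : GG K ⧸ G2 K ≃* CC K :=
  (QuotientGroup.quotientMulEquivOfEq (G2_eq K)).trans
    (QuotientGroup.quotientKerEquivOfSurjective rightHom rightHom_surjective)

lemma card_quot (hK : Nat.card K = 64) : Nat.card (GG K ⧸ G2 K) = 3 := by
  rw [Nat.card_congr (quotEquiv K).toEquiv, card_CC K hK]

lemma sub_center (hK : Nat.card K = 64) (N : Subgroup (Matrix.SpecialLinearGroup (Fin 3) K))
    (hN : N ≤ Subgroup.center _) : N = ⊥ ∨ N = Subgroup.center _ := by
  have h1 := Subgroup.card_dvd_of_le hN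
  rw [card_center K hK, Nat.dvd_prime Nat.prime_three] at h1
  rcases h1 with h1 | h1
  · exact Or.inl (Subgroup.eq_bot_of_card_eq _ h1)
  · exact Or.inr (Subgroup.eq_of_le_of_card_ge hN (by rw [h1, card_center K hK]))

/-- subgroups of `G₂` normal in `G₂` -/
lemma nsub' (hK : Nat.card K = 64) (N : Subgroup (GG K))
    (hn : (N.comap (inl : Matrix.SpecialLinearGroup (Fin 3) K →* GG K)).Normal)
    (hN : N ≤ G2 K) : N = ⊥ ∨ N = G1 K ∨ N = G2 K := by
  have h1 : N = (N.comap (inl : Matrix.SpecialLinearGroup (Fin 3) K →* GG K)).map inl := by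
    rw [Subgroup.map_comap_eq]
    exact (inf_eq_right.2 hN).symm
  rcases SL3_normal (N.comap (inl : Matrix.SpecialLinearGroup (Fin 3) K →* GG K)) with h2 | h2
  · rcases sub_center K hK _ h2 with h3 | h3
    · left; rw [h1, h3, Subgroup.map_bot]
    · right; left; rw [h1, h3]; rfl
  · right; right
    rw [h1, h2, ← MonoidHom.range_eq_map]; rfl

lemma nsub (hK : Nat.card K = 64) (N : Subgroup (GG K)) (hn : N.Normal)
    (hN : N ≤ G2 K) : N = ⊥ ∨ N = G1 K ∨ N = G2 K :=
  nsub' K hK N inferInstance hN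

/-- if commutators with a perfect group are central, they are trivial -/
lemma comm_of_central {P G : Type} [Group P] [Group G] (hP : commutator P = ⊤) (ι : P →* G)
    (g : G) (hg : ∀ x : P, ∀ y : G, y * ⁅g, ι x⁆ = ⁅g, ι x⁆ * y) (x : P) :
    g * ι x = ι x * g := by
  let f : P →* Subgroup.center G :=
    { toFun := fun x => ⟨⁅g, ι x⁆, Subgroup.mem_center_iff.2 (hg x)⟩
      map_one' := by ext; simp
      map_mul' := by
        intro a b
        ext
        simp only [Subgroup.coe_mul, map_mul]
        have h1 := hg b (ι a)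
        simp only [commutatorElement_def] at h1 ⊢
        calc g * (ι a * ι b) * g⁻¹ * (ι a * ι b)⁻¹
            = g * ι a * g⁻¹ * (g * ι b * g⁻¹ * (ι b)⁻¹) * (ι a)⁻¹ := by group
          _ = g * ι a * g⁻¹ * (ι a)⁻¹ * (ι a * (g * ι b * g⁻¹ * (ι b)⁻¹)) * (ι a)⁻¹ := by group
          _ = g * ι a * g⁻¹ * (ι a)⁻¹ * ((g * ι b * g⁻¹ * (ι b)⁻¹) * ι a) * (ι a)⁻¹ := by rw [h1]
          _ = _ := by group }
  have h1 : commutator P ≤ f.ker := by
    rw [commutator_def, Subgroup.commutator_le]
    intro a _ b _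
    rw [MonoidHom.mem_ker, map_commutatorElement, commutatorElement_eq_one_iff_mul_comm]
    exact Subtype.ext (Subgroup.mem_center_iff.1 (f b).2 _)
  rw [hP] at h1
  have h2 : f x = 1 := h1 (Subgroup.mem_top x)
  have h3 : ⁅g, ι x⁆ = 1 := congrArg Subtype.val h2
  exact commutatorElement_eq_one_iff_mul_comm.1 h3

lemma cen (g : GG K) (hg : ∀ x ∈ G2 K, ⁅g, x⁆ ∈ G1 K) : g ∈ G1 K := by
  have h1 : ∀ x : Matrix.SpecialLinearGroup (Fin 3) K, g * inl x = inl x * g :=
    comm_of_central (SL3_perfect K) inl g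
      (fun x y => cent K _ (hg _ ⟨x, rfl⟩) y)
  have h2 : ∀ x : Matrix.SpecialLinearGroup (Fin 3) K,
      g.left * act K g.right.1 x = x * g.left := by
    intro x
    have := congrArg SemidirectProduct.left (h1 x)
    rw [mul_left, mul_left, left_inl, right_inl, map_one, MulAut.one_apply] at this
    exact this
  have h3 : ∀ (i j : Fin 3) (hij : i ≠ j) (c : K),
      g.left.1 * Matrix.single i j (g.right.1 c) = Matrix.single i j c * g.left.1 := by
    intro i j hij c
    have h4 := congrArg Subtype.val (h2 (Matrix.SpecialLinearGroup.transvection hij c))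
    have h5 : (act K g.right.1 (Matrix.SpecialLinearGroup.transvection hij c)).1 =
        1 + Matrix.single i j (g.right.1 c) := by
      ext a b
      change g.right.1 ((Matrix.SpecialLinearGroup.transvection hij c).1 a b) = _
      rw [tv_coe, Matrix.add_apply, Matrix.add_apply, map_add, Matrix.single_apply,
        Matrix.single_apply, Matrix.one_apply]
      split_ifs <;> simp
    have h6 : g.left.1 * (act K g.right.1 (Matrix.SpecialLinearGroup.transvection hij c)).1 =
      (Matrix.SpecialLinearGroup.transvection hij c).1 * g.left.1 := h4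
    rw [h5, tv_coe, mul_add, add_mul, mul_one, one_mul] at h6
    exact add_left_cancel h6
  have h4 : g.left.1 ∈ Set.range (Matrix.scalar (Fin 3)) := by
    apply Matrix.mem_range_scalar_of_commute_single
    intro i j hij
    have := h3 i j hij 1
    rw [map_one] at this
    exact this.symm
  obtain ⟨a, ha⟩ := h4
  have ha0 : a ^ 3 = 1 := by
    have h5 : g.left.1.det = 1 := g.left.2
    rw [← ha, Matrix.scalar_apply, Matrix.det_diagonal] at h5
    simpa using h5
  have ha1 : a ≠ 0 := by
    rintro rfl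
    norm_num at ha0
  have h5 : g.right.1 = 1 := by
    ext c
    have h6 := h3 0 1 (by decide) c
    rw [← ha] at h6
    have h7 := congrFun (congrFun h6 0) 1
    rw [Matrix.scalar_apply, Matrix.diagonal_mul, Matrix.mul_diagonal,
      Matrix.single_apply_same, Matrix.single_apply_same] at h7
    rw [mul_comm] at h7
    exact mul_right_cancel₀ ha1 h7
  have h6 : g = inl g.left := by
    apply SemidirectProduct.ext
    · simp
    · rw [right_inl]; exact Subtype.ext h5
  rw [h6]
  refine ⟨g.left, ?_, rfl⟩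
  refine Matrix.SpecialLinearGroup.mem_center_iff.2 ⟨a, ?_, ha⟩
  rw [Fintype.card_fin]; exact ha0

/-- the automorphism induced by Frobenius -/
noncomputable def alpha : GG K ≃* GG K :=
  SemidirectProduct.congr (act K (frob K)) (MulEquiv.refl _) (by
    rintro ⟨_, n, rfl⟩
    ext A i j
    change (frob K) ((sig K ^ n) (A i j)) = (sig K ^ n) (frob K (A i j))
    have h : frob K * sig K ^ n = sig K ^ n * frob K := by
      unfold sig
      exact (((Commute.refl (frob K)).pow_right 2).zpow_right n).eq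
    exact congrArg (fun f : K ≃+* K => f (A i j)) h)

lemma alpha_apply (g : GG K) : alpha K g = ⟨act K (frob K) g.left, g.right⟩ := rfl

lemma alpha1 (z : GG K) (hz : z ∈ G1 K) : alpha K z = z⁻¹ := by
  obtain ⟨z, hz, rfl⟩ := hz
  rw [alpha_apply, left_inl, right_inl, act_center K z hz, ← map_inv]
  rfl

lemma alpha2 (g : GG K) : g⁻¹ * alpha K g ∈ G2 K := by
  unfold G2
  rw [range_inl_eq_ker_rightHom, MonoidHom.mem_ker, map_mul, map_inv]
  change g.right⁻¹ * g.right = 1
  exact inv_mul_cancel _

lemma exp3 (hK : Nat.card K = 64) (z : GG K) (hz : z ∈ G1 K) : z ^ 3 = 1 := by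
  have h1 : (⟨z, hz⟩ : G1 K) ^ Nat.card (G1 K) = 1 := pow_card_eq_one'
  rw [card_G1 K hK] at h1
  exact congrArg Subtype.val h1

lemma univ_G (hK : Nat.card K = 64) (E : Type) [Group E] [Finite E] (π : E →* GG K)
    (hE : commutator E = ⊤) (hr : π.range = G2 K)
    (hc : ∀ x ∈ π.ker, ∀ y : E, y * x = x * y) (h3 : ∀ x ∈ π.ker, x ^ 3 = 1) :
    Function.Injective π := by
  have hmem : ∀ x, π x ∈ (inl : Matrix.SpecialLinearGroup (Fin 3) K →* GG K).range := by
    intro x
    have : π x ∈ G2 K := by rw [← hr]; exact ⟨x, rfl⟩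
    exact this
  let e : Matrix.SpecialLinearGroup (Fin 3) K ≃*
      (inl : Matrix.SpecialLinearGroup (Fin 3) K →* GG K).range :=
    MonoidHom.ofInjective (inl_inj' K)
  let π' : E →* Matrix.SpecialLinearGroup (Fin 3) K :=
    e.symm.toMonoidHom.comp (π.codRestrict _ hmem)
  have hπ' : ∀ x, inl (π' x) = π x := by
    intro x
    have : e (π' x) = ⟨π x, hmem x⟩ := e.apply_symm_apply _
    exact congrArg Subtype.val this
  have hker : ∀ x ∈ π'.ker, x ∈ π.ker := by
    intro x hx
    rw [MonoidHom.mem_ker] at hx ⊢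
    rw [← hπ', hx, map_one]
  have hs : Function.Surjective π' := by
    intro A
    have h1 : (inl A : GG K) ∈ π.range := by rw [hr]; exact ⟨A, rfl⟩
    obtain ⟨x, hx⟩ := h1
    refine ⟨x, inl_inj' K ?_⟩
    rw [hπ', hx]
  have h1 := univ_SL3 hK hE π' hs (fun x hx => hc x (hker x hx)) (fun x hx => h3 x (hker x hx))
  rw [injective_iff_map_eq_one] at h1 ⊢
  intro x hx
  apply h1
  apply inl_inj' K
  rw [hπ', hx, map_one]

theorem hyp (hK : Nat.card K = 64) : Hyp (GG K) (G1 K) (G2 K) where
  cent := cent K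
  le := G1_le K
  perfect := perfect K
  comm := comm K
  nsub := nsub K hK
  cen := cen K
  mult := by
    intro S _ _ φ ψ hφ _ hφψ
    have : Fact (Nat.Prime 3) := ⟨Nat.prime_three⟩
    exact mult_of_univ (cent K) (perfect K) (comm K)
      (isCyclic_of_prime_card (card_quot K hK)) (exp3 K hK) (univ_G K hK) S φ ψ hφ hφψ

theorem finite_GG (hK : Nat.card K = 64) : {F : GClass | IsSub (GG K) F}.Finite := by
  refine finite_sub (hyp K hK) (alpha K) (alpha1 K) (alpha2 K) ?_
  intro z hz hzz
  have := exp3 K hK z hz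
  rw [pow_succ, pow_two, hzz, one_mul] at this
  exact this

end

end Pool.Agent.Form3
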