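import Pool.Agent.Form3.Transfer

set_option autoImplicit false

namespace Pool.Agent.Form3

open scoped commutatorElement
open Matrix

variable {K : Type} [Field K]

/-- diagonal torus of `SL₃` -/
def dg (K : Type) [Field K] : Kˣ × Kˣ →* SpecialLinearGroup (Fin 3) K where
  toFun p := ⟨Matrix.diagonal ![(p.1 : K), (p.1⁻¹ : Kˣ) * (p.2 : K), (p.2⁻¹ : Kˣ)], by
    rw [Matrix.det_diagonal, Fin.prod_univ_three]
    simp⟩
  map_one' := by
    ext i j
    fin_cases i <;> fin_cases j <;> simp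
  map_mul' p q := by
    apply Subtype.ext
    change Matrix.diagonal _ = Matrix.diagonal _ * Matrix.diagonal _
    rw [Matrix.diagonal_mul_diagonal]
    congr 1
    funext i
    fin_cases i <;> simp <;> ring

lemma dg_coe (p : Kˣ × Kˣ) : (dg K p : Matrix (Fin 3) (Fin 3) K) =
    Matrix.diagonal ![(p.1 : K), (p.1⁻¹ : Kˣ) * (p.2 : K), (p.2⁻¹ : Kˣ)] := rfl

lemma dg_injective : Function.Injective (dg K) := by
  intro p q hpq
  have h1 : (dg K p : Matrix (Fin 3) (Fin 3) K) = dg K q := by rw [hpq]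
  rw [dg_coe, dg_coe] at h1
  have e0 := congrFun (congrFun h1 0) 0
  have e2 := congrFun (congrFun h1 2) 2
  simp at e0 e2
  exact Prod.ext (Units.ext e0) (Units.ext e2)

/-- the 3-cycle -/
def wm (K : Type) [Field K] : SpecialLinearGroup (Fin 3) K :=
  ⟨!![0, 0, 1; 1, 0, 0; 0, 1, 0], by rw [Matrix.det_fin_three]; simp⟩

/-- the transposition (characteristic 2) -/
def sm (K : Type) [Field K] [CharP K 2] : SpecialLinearGroup (Fin 3) K :=
  ⟨!![0, 1, 0; 1, 0, 0; 0, 0, 1], by rw [Matrix.det_fin_three]; simp [CharTwo.neg_eq]⟩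

lemma wm_dg (p : Kˣ × Kˣ) : wm K * dg K p = dg K (p.2⁻¹, p.1 * p.2⁻¹) * wm K := by
  apply Subtype.ext
  change (wm K : Matrix (Fin 3) (Fin 3) K) * (dg K p : Matrix (Fin 3) (Fin 3) K) =
    (dg K _ : Matrix (Fin 3) (Fin 3) K) * (wm K : Matrix (Fin 3) (Fin 3) K)
  rw [dg_coe, dg_coe]
  ext i j
  have h2 : (p.2 : K) ≠ 0 := p.2.ne_zero
  fin_cases i <;> fin_cases j <;> simp [wm, Matrix.mul_apply, Matrix.diagonal] <;> field_simp

lemma wm_sq_coe : ((wm K * wm K : SpecialLinearGroup (Fin 3) K) : Matrix (Fin 3) (Fin 3) K) =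
    !![0, 1, 0; 0, 0, 1; 1, 0, 0] := by
  change (wm K).1 * (wm K).1 = _
  ext i j
  fin_cases i <;> fin_cases j <;> simp [wm, Matrix.mul_apply, Fin.sum_univ_three]

lemma wm_cube : wm K ^ 3 = 1 := by
  rw [pow_three]
  have : (((wm K * (wm K * wm K)) : SpecialLinearGroup (Fin 3) K) : Matrix (Fin 3) (Fin 3) K) =
      ((1 : SpecialLinearGroup (Fin 3) K) : Matrix (Fin 3) (Fin 3) K) := by
    change (wm K).1 * ((wm K * wm K : SpecialLinearGroup (Fin 3) K) : Matrix (Fin 3) (Fin 3) K) = 1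
    rw [wm_sq_coe]
    ext i j
    fin_cases i <;> fin_cases j <;> simp [wm, Matrix.mul_apply, Fin.sum_univ_three]
  exact Subtype.ext this

lemma sm_dg1 [CharP K 2] (x : Kˣ) : sm K * dg K (x, 1) = (dg K (x, 1))⁻¹ * sm K := by
  rw [← map_inv]
  apply Subtype.ext
  change (sm K : Matrix (Fin 3) (Fin 3) K) * (dg K _ : Matrix (Fin 3) (Fin 3) K) =
    (dg K _ : Matrix (Fin 3) (Fin 3) K) * (sm K : Matrix (Fin 3) (Fin 3) K)
  rw [dg_coe, dg_coe]
  ext i j
  fin_cases i <;> fin_cases j <;> simp [sm, Matrix.mul_apply, Matrix.diagonal]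

lemma sm_dg2 [CharP K 2] (x : Kˣ) :
    sm K * dg K (1, x) = (dg K (x, 1) * dg K (1, x)) * sm K := by
  rw [← map_mul]
  apply Subtype.ext
  change (sm K : Matrix (Fin 3) (Fin 3) K) * (dg K _ : Matrix (Fin 3) (Fin 3) K) =
    (dg K _ : Matrix (Fin 3) (Fin 3) K) * (sm K : Matrix (Fin 3) (Fin 3) K)
  rw [dg_coe, dg_coe]
  ext i j
  fin_cases i <;> fin_cases j <;> simp [sm, Matrix.mul_apply, Matrix.diagonal]

lemma wm_pow_notMem : wm K ∉ (dg K).range ∧ wm K ^ 2 ∉ (dg K).range := by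
  constructor
  · rintro ⟨p, hp⟩
    have h1 : (dg K p : Matrix (Fin 3) (Fin 3) K) = wm K := by rw [hp]
    rw [dg_coe] at h1
    have := congrFun (congrFun h1 0) 2
    simp [wm] at this
  · rintro ⟨p, hp⟩
    have h1 : (dg K p : Matrix (Fin 3) (Fin 3) K) =
        ((wm K * wm K : SpecialLinearGroup (Fin 3) K) : Matrix (Fin 3) (Fin 3) K) := by
      rw [hp, pow_two]
    rw [dg_coe, wm_sq_coe] at h1
    have := congrFun (congrFun h1 0) 1
    simp at this

lemma wm_conj (t : SpecialLinearGroup (Fin 3) K) (ht : t ∈ (dg K).range) :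
    wm K * t * (wm K)⁻¹ ∈ (dg K).range := by
  obtain ⟨p, rfl⟩ := ht
  rw [wm_dg]
  exact ⟨(p.2⁻¹, p.1 * p.2⁻¹), by rw [mul_inv_cancel_right]⟩

/-- monomial group -/
def Nm (K : Type) [Field K] : Subgroup (SpecialLinearGroup (Fin 3) K) where
  carrier := {x | ∃ t ∈ (dg K).range, ∃ k : ℕ, x = t * wm K ^ k}
  one_mem' := ⟨1, Subgroup.one_mem _, 0, by simp⟩
  mul_mem' := by
    rintro _ _ ⟨t, ht, k, rfl⟩ ⟨u, hu, l, rfl⟩
    have hwk : ∀ k : ℕ, ∀ t ∈ (dg K).range, wm K ^ k * t * (wm K ^ k)⁻¹ ∈ (dg K).range := by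
      intro k
      induction k with
      | zero => intro t ht; simpa using ht
      | succ k ih =>
        intro t ht
        have e : wm K ^ (k + 1) * t * (wm K ^ (k + 1))⁻¹ =
          wm K * (wm K ^ k * t * (wm K ^ k)⁻¹) * (wm K)⁻¹ := by
          rw [pow_succ']; group
        rw [e]; exact wm_conj _ (ih t ht)
    refine ⟨t * (wm K ^ k * u * (wm K ^ k)⁻¹), Subgroup.mul_mem _ ht (hwk k u hu), k + l, ?_⟩
    rw [pow_add]; group
  inv_mem' := by
    rintro _ ⟨t, ht, k, rfl⟩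
    have hwk : ∀ k : ℕ, ∀ t ∈ (dg K).range, wm K ^ k * t * (wm K ^ k)⁻¹ ∈ (dg K).range := by
      intro k
      induction k with
      | zero => intro t ht; simpa using ht
      | succ k ih =>
        intro t ht
        have e : wm K ^ (k + 1) * t * (wm K ^ (k + 1))⁻¹ =
          wm K * (wm K ^ k * t * (wm K ^ k)⁻¹) * (wm K)⁻¹ := by
          rw [pow_succ']; group
        rw [e]; exact wm_conj _ (ih t ht)
    have h3 : (wm K ^ k)⁻¹ = wm K ^ (2 * k) := by
      rw [inv_eq_iff_mul_eq_one, ← pow_add, show k + 2 * k = 3 * k by ring, pow_mul, wm_cube,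
        one_pow]
    refine ⟨wm K ^ (2 * k) * t⁻¹ * (wm K ^ (2 * k))⁻¹, hwk _ _ (Subgroup.inv_mem _ ht), 2 * k, ?_⟩
    rw [_root_.mul_inv_rev, h3]; group

lemma mem_Nm (x : SpecialLinearGroup (Fin 3) K) :
    x ∈ Nm K ↔ ∃ t ∈ (dg K).range, ∃ k : ℕ, x = t * wm K ^ k := Iff.rfl

lemma card_Nm [Finite K] : Nat.card (Nm K) = Nat.card Kˣ * Nat.card Kˣ * 3 := by
  let f : (Kˣ × Kˣ) × Fin 3 → Nm K := fun p => ⟨dg K p.1 * wm K ^ (p.2 : ℕ),
    ⟨_, ⟨p.1, rfl⟩, _, rfl⟩⟩
  have hf : Function.Bijective f := by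
    constructor
    · rintro ⟨p, i⟩ ⟨q, j⟩ hpq
      have h1 : dg K p * wm K ^ (i : ℕ) = dg K q * wm K ^ (j : ℕ) := congrArg Subtype.val hpq
      -- wlog by cases on i j
      have key : ∀ (p q : Kˣ × Kˣ) (i j : Fin 3), i ≤ j →
          dg K p * wm K ^ (i : ℕ) = dg K q * wm K ^ (j : ℕ) → i = j := by
        intro p q i j hij h1
        have h2 : wm K ^ ((j : ℕ) - (i : ℕ)) = (dg K q)⁻¹ * dg K p := by
          have e : (j : ℕ) = ((j : ℕ) - i) + i := (Nat.sub_add_cancel hij).symm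
          rw [e, pow_add, ← mul_assoc] at h1
          have := mul_right_cancel h1
          rw [this]; group
        have h3 : wm K ^ ((j : ℕ) - (i : ℕ)) ∈ (dg K).range := by
          rw [h2]; exact ⟨q⁻¹ * p, by rw [map_mul, map_inv]⟩
        have h4 := (wm_pow_notMem (K := K))
        have h5 : ((j : ℕ) - (i : ℕ)) = 0 ∨ ((j : ℕ) - (i : ℕ)) = 1 ∨ ((j : ℕ) - (i : ℕ)) = 2 := by
          have := j.2
          omega
        rcases h5 with h5 | h5 | h5
        · apply Fin.ext
          have : (i : ℕ) ≤ j := hij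
          omega
        · rw [h5, pow_one] at h3
          exact absurd h3 h4.1
        · rw [h5] at h3
          exact absurd h3 h4.2
      have hij : i = j := by
        rcases le_total i j with h | h
        · exact key p q i j h h1
        · exact (key q p j i h h1.symm).symm
      subst hij
      have := dg_injective (mul_right_cancel h1)
      rw [this]
    · rintro ⟨_, ⟨_, ⟨p, rfl⟩, k, rfl⟩⟩
      refine ⟨(p, ⟨k % 3, Nat.mod_lt _ (by norm_num)⟩), ?_⟩
      apply Subtype.ext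
      change dg K p * wm K ^ (k % 3) = dg K p * wm K ^ k
      congr 1
      conv_rhs => rw [← Nat.div_add_mod k 3, pow_add, pow_mul, wm_cube, one_pow, one_mul]
  have := Nat.card_congr (Equiv.ofBijective f hf)
  rw [← this, Nat.card_prod, Nat.card_prod, Nat.card_eq_fintype_card (α := Fin 3),
    Fintype.card_fin]

lemma card_SL3 [Finite K] : Nat.card (SpecialLinearGroup (Fin 3) K) * Nat.card Kˣ =
    Nat.card (GL (Fin 3) K) := by
  have h1 : Nat.card (SpecialLinearGroup (Fin 3) K) =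
      Nat.card (GeneralLinearGroup.det (n := Fin 3) (R := K)).ker := by
    let f : SpecialLinearGroup (Fin 3) K → (GeneralLinearGroup.det (n := Fin 3) (R := K)).ker :=
      fun A => ⟨SpecialLinearGroup.toGL A, by
        rw [MonoidHom.mem_ker]; exact SpecialLinearGroup.coeToGL_det A⟩
    refine Nat.card_congr (Equiv.ofBijective f ⟨?_, ?_⟩)
    · intro A B hAB
      exact SpecialLinearGroup.toGL_injective (congrArg Subtype.val hAB)
    · rintro ⟨A, hA⟩
      refine ⟨⟨A.1, ?_⟩, ?_⟩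
      · exact congrArg Units.val hA
      · apply Subtype.ext
        apply Units.ext
        rfl
  have h2 : Function.Surjective (GeneralLinearGroup.det (n := Fin 3) (R := K)) := by
    intro x
    refine ⟨GeneralLinearGroup.mkOfDetNeZero (Matrix.diagonal ![(x : K), 1, 1]) (by
      rw [Matrix.det_diagonal, Fin.prod_univ_three]; simp), ?_⟩
    apply Units.ext
    change (Matrix.diagonal ![(x : K), 1, 1]).det = x
    rw [Matrix.det_diagonal, Fin.prod_univ_three]; simp
  have h3 := Subgroup.card_mul_index (GeneralLinearGroup.det (n := Fin 3) (R := K)).ker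
  rw [Subgroup.index_ker, MonoidHom.range_eq_top.2 h2, Subgroup.card_top] at h3
  rw [h1, h3]

lemma Nm_index (K : Type) [Field K] [Finite K] (hK : Nat.card K = 64) :
    Nat.Coprime 3 (Nm K).index := by
  have := Fintype.ofFinite K
  have h0 : Nat.card Kˣ = 63 := by
    have := Nat.card_eq_card_units_add_one K
    omega
  have h1 := card_SL3 (K := K)
  rw [Matrix.card_GL_field, Fin.prod_univ_three] at h1
  rw [← Nat.card_eq_fintype_card, hK, h0] at h1
  have h2 := Subgroup.card_mul_index (Nm K)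
  rw [card_Nm, h0] at h2
  rw [← h2] at h1
  have h3 : (Nm K).index = 23633592320 := by
    norm_num at h1
    omega
  rw [h3]
  norm_num

end Pool.Agent.Form3
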