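import Pool.Agent.Form3.SL3

set_option autoImplicit false

namespace Pool.Agent.Form3

open scoped commutatorElement
open Matrix

variable {K : Type} [Field K]

lemma dg_central (p : Kˣ × Kˣ) (hp : dg K p * wm K = wm K * dg K p) :
    ∀ q : SpecialLinearGroup (Fin 3) K, q * dg K p = dg K p * q := by
  rw [wm_dg] at hp
  have h1 := dg_injective (mul_right_cancel hp)
  have e1 : p.1 = p.2⁻¹ := congrArg Prod.fst h1
  have e2 : p.2 = p.1 * p.2⁻¹ := congrArg Prod.snd h1
  have e3 : p.1⁻¹ * p.2 = p.1 := by
    rw [e1] at e2 ⊢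
    rw [inv_inv]
    nth_rewrite 1 [e2]
    group
  have h2 : (dg K p : Matrix (Fin 3) (Fin 3) K) = Matrix.scalar (Fin 3) (p.1 : K) := by
    rw [dg_coe, Matrix.scalar_apply]
    congr 1
    funext i
    fin_cases i
    · simp
    · simpa using congrArg Units.val e3
    · simpa using (congrArg Units.val e1).symm
  intro q
  apply Subtype.ext
  change q.1 * (dg K p).1 = (dg K p).1 * q.1
  have h3 : (dg K p).1 = Matrix.scalar (Fin 3) (p.1 : K) := h2
  rw [h3]
  exact (Matrix.scalar_commute _ (fun r => Commute.all _ _) q.1).symm.eq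

theorem univ_SL3 [Finite K] [CharP K 2] (hK : Nat.card K = 64) {E : Type} [Group E] [Finite E]
    (hE : commutator E = ⊤) (π : E →* SpecialLinearGroup (Fin 3) K)
    (hπ : Function.Surjective π)
    (hc : ∀ x ∈ π.ker, ∀ y : E, y * x = x * y) (h3 : ∀ x ∈ π.ker, x ^ 3 = 1) :
    Function.Injective π := by
  obtain ⟨ζ, hζ⟩ : IsCyclic Kˣ := inferInstance
  refine univ_abstract hE π hπ hc h3 (dg K (ζ, 1)) (dg K (1, ζ)) (sm K) (wm K) ?_ ?_ ?_
    (dg K).range (Nm K) ?_ wm_conj (fun x hx => hx) (Nm_index K hK) ?_
  · rw [← map_mul, ← map_mul, mul_comm]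
  · rw [sm_dg1]; group
  · rw [sm_dg2]; group
  · rintro _ ⟨⟨x, y⟩, rfl⟩
    obtain ⟨i, hi⟩ := hζ x
    obtain ⟨j, hj⟩ := hζ y
    refine ⟨i, j, ?_⟩
    rw [← map_zpow, ← map_zpow, ← map_mul]
    congr 1
    ext
    · simpa using congrArg Units.val hi.symm
    · simpa using congrArg Units.val hj.symm
  · rintro _ ⟨p, rfl⟩ hp
    exact dg_central p hp

/-! ### generation, perfectness, normal subgroups -/

lemma tv_coe {i j : Fin 3} (hij : i ≠ j) (c : K) :
    (SpecialLinearGroup.transvection hij c).1 = 1 + Matrix.single i j c := by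
  rw [SpecialLinearGroup.transvection_coe]

lemma nij_coe {i j : Fin 3} (hij : i ≠ j) {c : K} (hc : c ≠ 0) :
    (SpecialLinearGroup.transvection hij c).1 * (SpecialLinearGroup.transvection hij.symm (-c⁻¹)).1 *
      (SpecialLinearGroup.transvection hij c).1 =
      1 + Matrix.single i j c - Matrix.single j i c⁻¹ - Matrix.single i i 1 -
        Matrix.single j j 1 := by
  simp only [tv_coe]
  simp only [mul_add, add_mul, mul_one, one_mul]
  simp [Matrix.single_mul_single_of_ne, hij, hij.symm, hc, ← Matrix.single_neg]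
  abel

lemma diag2n_eq {i j : Fin 3} (hij : i ≠ j) {c : K} (hc : c ≠ 0) :
    (SpecialLinearGroup.diag2n hij c hc).1 =
      1 + Matrix.single i i c + Matrix.single j j c⁻¹ - Matrix.single i i 1 -
        Matrix.single j j 1 := by
  rw [SpecialLinearGroup.diag2n_coe]
  ext a b
  fin_cases i <;> fin_cases j <;> first | exact absurd rfl hij | (fin_cases a <;> fin_cases b <;> simp [Matrix.single, Matrix.diagonal])

lemma diag2n_prod {i j : Fin 3} (hij : i ≠ j) {c : K} (hc : c ≠ 0) :
    SpecialLinearGroup.diag2n hij c hc = (SpecialLinearGroup.transvection hij c *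
      SpecialLinearGroup.transvection hij.symm (- c⁻¹) *
      SpecialLinearGroup.transvection hij c) *
      (SpecialLinearGroup.transvection hij (-1) *
      SpecialLinearGroup.transvection hij.symm (-(-1)⁻¹) *
      SpecialLinearGroup.transvection hij (-1)) := by
  apply Subtype.ext
  change _ = ((SpecialLinearGroup.transvection hij c).1 * (SpecialLinearGroup.transvection hij.symm (-c⁻¹)).1 *
      (SpecialLinearGroup.transvection hij c).1) * ((SpecialLinearGroup.transvection hij (-1)).1 *
      (SpecialLinearGroup.transvection hij.symm (-(-1)⁻¹)).1 *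
      (SpecialLinearGroup.transvection hij (-1)).1)
  rw [nij_coe hij hc, nij_coe hij (neg_ne_zero.2 one_ne_zero), diag2n_eq]
  simp only [mul_add, add_mul, mul_sub, sub_mul, mul_one, one_mul]
  simp [Matrix.single_mul_single_of_ne, hij, hij.symm, hc, ← Matrix.single_neg, inv_neg]
  abel

lemma diag2n_mem_closure (H : Subgroup (SpecialLinearGroup (Fin 3) K))
    (hH : ∀ (i j : Fin 3) (hij : i ≠ j) (c : K), SpecialLinearGroup.transvection hij c ∈ H)
    (i j : Fin 3) (hij : i ≠ j) {c : K} (hc : c ≠ 0) :
    SpecialLinearGroup.diag2n hij c hc ∈ H := by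
  rw [diag2n_prod]
  exact H.mul_mem (H.mul_mem (H.mul_mem (hH _ _ _ _) (hH _ _ _ _)) (hH _ _ _ _))
    (H.mul_mem (H.mul_mem (hH _ _ _ _) (hH _ _ _ _)) (hH _ _ _ _))

lemma eq_top_of_transvections (H : Subgroup (SpecialLinearGroup (Fin 3) K))
    (hH : ∀ (i j : Fin 3) (hij : i ≠ j) (c : K), SpecialLinearGroup.transvection hij c ∈ H) :
    H = ⊤ := by
  rw [eq_top_iff]
  intro A _
  exact SpecialLinearGroup.diagonal_transvection_induction' (fun A => A ∈ H) A
    (fun i j hij c hc => diag2n_mem_closure H hH i j hij hc) hH (fun _ _ => H.mul_mem)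

lemma transvection_comm {i j k : Fin 3} (hij : i ≠ j) (hjk : j ≠ k) (hik : i ≠ k) (c : K) :
    ⁅SpecialLinearGroup.transvection hij c, SpecialLinearGroup.transvection hjk (1 : K)⁆ =
      SpecialLinearGroup.transvection hik c := by
  rw [commutatorElement_def, mul_inv_eq_iff_eq_mul, mul_inv_eq_iff_eq_mul]
  apply Subtype.ext
  change (SpecialLinearGroup.transvection hij c).1 * (SpecialLinearGroup.transvection hjk 1).1 =
    (SpecialLinearGroup.transvection hik c).1 * (SpecialLinearGroup.transvection hjk 1).1 *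
    (SpecialLinearGroup.transvection hij c).1
  simp only [tv_coe]
  simp only [mul_add, add_mul, mul_one, one_mul]
  simp [Matrix.single_mul_single_of_ne, hjk.symm, hik.symm]
  abel

theorem SL3_perfect (K : Type) [Field K] : commutator (SpecialLinearGroup (Fin 3) K) = ⊤ := by
  apply eq_top_of_transvections
  intro i k hik c
  obtain ⟨j, hij, hjk⟩ : ∃ j : Fin 3, i ≠ j ∧ j ≠ k := by
    revert i k
    decide
  rw [← transvection_comm hij hjk hik c, commutator_def]
  exact Subgroup.commutator_mem_commutator (Subgroup.mem_top _) (Subgroup.mem_top _)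

open MulAction in
/-- Iwasawa structure on `SL₃(K)`. -/
noncomputable def iwa (K : Type) [Field K] :
    IwasawaStructure (SpecialLinearGroup (Fin 3) K) (Projectivization K (Fin 3 → K)) where
  T p := SpecialLinearGroup.lineStab p.submodule
  is_comm p := by
    rw [← Projectivization.mk_rep p, Projectivization.submodule_mk]
    exact SpecialLinearGroup.lineStab_isMulCommutative_of_span p.rep p.rep_nonzero
  is_conj g p := by
    rw [PSL.smul_submodule, SpecialLinearGroup.lineStab_smul]
  is_generator := by
    apply eq_top_of_transvections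
    intro i j hij c
    have h1 := SL2Gen.transvection_mem_lineStab (F := K) hij c
    have h2 : (Pi.single i (1 : K) : Fin 3 → K) ≠ 0 := Pi.single_ne_zero_iff.2 one_ne_zero
    rw [← Projectivization.submodule_mk (K := K) _ h2] at h1
    exact (le_iSup (fun p : Projectivization K (Fin 3 → K) =>
      SpecialLinearGroup.lineStab p.submodule) _) h1

theorem SL3_normal (N : Subgroup (SpecialLinearGroup (Fin 3) K)) [N.Normal] :
    N ≤ Subgroup.center _ ∨ N = ⊤ := by
  by_cases h : MulAction.fixedPoints N (Projectivization K (Fin 3 → K)) = .univ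
  · left
    rw [← Projectivization.SL_mulAction_ker]
    intro x hx
    rw [MonoidHom.mem_ker]
    ext p
    have : p ∈ MulAction.fixedPoints N (Projectivization K (Fin 3 → K)) := by
      rw [h]; exact Set.mem_univ _
    exact this ⟨x, hx⟩
  · right
    have := (iwa K).commutator_le N h
    rw [SL3_perfect] at this
    exact top_le_iff.1 this

end Pool.Agent.Form3
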