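import Pool.Agent.Form3.Group2

set_option autoImplicit false
set_option linter.unusedSectionVars false

namespace Pool.Agent.Form3

open scoped commutatorElement
open Matrix SemidirectProduct

section

variable (K : Type) [Field K] [Finite K] [CharP K 2]

instance : (G1 K).Normal := ⟨fun z hz g => by rw [cent K z hz g]; simpa using hz⟩

/-- `SL₃(64) ≃ G₂` -/
noncomputable def toG2 : Matrix.SpecialLinearGroup (Fin 3) K →* G2 K :=
  (inl : Matrix.SpecialLinearGroup (Fin 3) K →* GG K).codRestrict (G2 K) (fun x => ⟨x, rfl⟩)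

/-- `SL₃(64) → G₂/G₁` -/
noncomputable def qq : Matrix.SpecialLinearGroup (Fin 3) K →* G2 K ⧸ (G1 K).subgroupOf (G2 K) :=
  (QuotientGroup.mk' ((G1 K).subgroupOf (G2 K))).comp (toG2 K)

lemma qq_surj : Function.Surjective (qq K) := by
  intro x
  obtain ⟨⟨_, y, rfl⟩, rfl⟩ := QuotientGroup.mk_surjective x
  exact ⟨y, rfl⟩

lemma qq_ker (x : Matrix.SpecialLinearGroup (Fin 3) K) :
    qq K x = 1 ↔ x ∈ Subgroup.center _ := by
  constructor
  · intro h
    have h1 : toG2 K x ∈ (G1 K).subgroupOf (G2 K) := (QuotientGroup.eq_one_iff _).1 h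
    rw [Subgroup.mem_subgroupOf] at h1
    obtain ⟨y, hy, hyx⟩ := h1
    have : y = x := inl_inj' K hyx
    rw [← this]; exact hy
  · intro h
    apply (QuotientGroup.eq_one_iff _).2
    rw [Subgroup.mem_subgroupOf]
    exact ⟨x, h, rfl⟩

lemma tv_notMem : Matrix.SpecialLinearGroup.transvection (F := K) (show (0 : Fin 3) ≠ 1 by decide) 1 ∉
    Subgroup.center (Matrix.SpecialLinearGroup (Fin 3) K) := by
  rw [Matrix.SpecialLinearGroup.transvection_mem_center_iff]
  exact one_ne_zero

instance qq_nontrivial : Nontrivial (G2 K ⧸ (G1 K).subgroupOf (G2 K)) :=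
  ⟨⟨_, 1, fun h => tv_notMem K ((qq_ker K _).1 h)⟩⟩

theorem simple : IsSimpleGroup (G2 K ⧸ (G1 K).subgroupOf (G2 K)) where
  eq_bot_or_eq_top_of_normal := by
    intro H hH
    rcases SL3_normal (H.comap (qq K)) with h | h
    · left
      rw [eq_bot_iff]
      intro x hx
      obtain ⟨y, rfl⟩ := qq_surj K x
      exact (qq_ker K y).2 (h hx)
    · right
      rw [eq_top_iff]
      intro x _
      obtain ⟨y, rfl⟩ := qq_surj K x
      have : y ∈ H.comap (qq K) := by rw [h]; exact Subgroup.mem_top y
      exact this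

theorem nonab : ¬ ∀ a b : G2 K ⧸ (G1 K).subgroupOf (G2 K), a * b = b * a := by
  intro h
  have h1 : commutator (Matrix.SpecialLinearGroup (Fin 3) K) ≤ (qq K).ker := by
    rw [commutator_def, Subgroup.commutator_le]
    intro a _ b _
    rw [MonoidHom.mem_ker, map_commutatorElement, commutatorElement_eq_one_iff_mul_comm]
    exact h _ _
  rw [SL3_perfect] at h1
  exact tv_notMem K ((qq_ker K _).1 (h1 (Subgroup.mem_top _)))

theorem series (hK : Nat.card K = 64) (A B : Subgroup (GG K)) (hA : (A.subgroupOf B).Normal)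
    (hB : B.Normal) (hAB : A ≤ B) (sA : IsSimpleGroup A)
    (sBA : IsSimpleGroup (B ⧸ A.subgroupOf B)) (sGB : IsSimpleGroup (GG K ⧸ B)) :
    A = G1 K ∧ B = G2 K := by
  have hneq : A ≠ B := by
    rintro rfl
    have h1 : A.subgroupOf A = ⊤ := Subgroup.subgroupOf_self A
    obtain ⟨x, y, hxy⟩ := sBA.exists_pair_ne
    apply hxy
    obtain ⟨a, rfl⟩ := QuotientGroup.mk_surjective x
    obtain ⟨b, rfl⟩ := QuotientGroup.mk_surjective y
    rw [QuotientGroup.eq, h1]
    exact Subgroup.mem_top _
  have hA0 : A ≠ ⊥ := by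
    rintro rfl
    obtain ⟨x, y, hxy⟩ := sA.exists_pair_ne
    exact hxy (Subsingleton.elim _ _)
  have hBcase : B = G2 K := by
    have hle_case : B ⊓ G2 K ≤ G1 K → False := by
      intro hle
      have hB1 : B ≤ G1 K := by
        intro b hb
        apply cen K
        intro x hx
        apply hle
        refine ⟨?_, ?_⟩
        · rw [commutatorElement_def, mul_assoc, mul_assoc]
          refine B.mul_mem hb ?_
          rw [← mul_assoc]
          exact hB.conj_mem _ (B.inv_mem hb) x
        · rw [commutatorElement_def]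
          exact (G2 K).mul_mem ((inferInstance : (G2 K).Normal).conj_mem x hx b)
            ((G2 K).inv_mem hx)
      have hA1 : A = G1 K := by
        have h1 := Subgroup.card_dvd_of_le (hAB.trans hB1)
        rw [card_G1 K hK, Nat.dvd_prime Nat.prime_three] at h1
        rcases h1 with h1 | h1
        · exact absurd (Subgroup.eq_bot_of_card_eq _ h1) hA0
        · exact Subgroup.eq_of_le_of_card_ge (hAB.trans hB1) (by rw [h1, card_G1 K hK])
      apply hneq
      exact le_antisymm hAB (hB1.trans hA1.ge)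
    have hn : (B ⊓ G2 K).Normal := inferInstance
    rcases nsub K hK (B ⊓ G2 K) hn inf_le_right with h | h | h
    · exact (hle_case (by rw [h]; exact bot_le)).elim
    · exact (hle_case h.le).elim
    · have hle : G2 K ≤ B := inf_eq_right.1 h
      have e1 := Subgroup.relIndex_mul_index hle
      have e2 : (G2 K).index = 3 := card_quot K hK
      rw [e2] at e1
      have e3 : B.index ∣ 3 := ⟨_, by rw [mul_comm]; exact e1.symm⟩
      rw [Nat.dvd_prime Nat.prime_three] at e3
      rcases e3 with e3 | e3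
      · exfalso
        rw [Subgroup.index_eq_one] at e3
        obtain ⟨x, y, hxy⟩ := sGB.exists_pair_ne
        apply hxy
        obtain ⟨a, rfl⟩ := QuotientGroup.mk_surjective x
        obtain ⟨b, rfl⟩ := QuotientGroup.mk_surjective y
        rw [QuotientGroup.eq, e3]
        exact Subgroup.mem_top _
      · rw [e3] at e1
        have e4 : (G2 K).relIndex B = 1 := by omega
        rw [Subgroup.relIndex_eq_one] at e4
        exact le_antisymm e4 hle
  subst hBcase
  refine ⟨?_, rfl⟩
  have hn : (A.comap (inl : Matrix.SpecialLinearGroup (Fin 3) K →* GG K)).Normal := by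
    constructor
    intro a ha x
    rw [Subgroup.mem_comap] at ha ⊢
    rw [map_mul, map_mul, map_inv]
    have h1 : (⟨inl a, ⟨a, rfl⟩⟩ : G2 K) ∈ A.subgroupOf (G2 K) := ha
    exact hA.conj_mem _ h1 ⟨inl x, ⟨x, rfl⟩⟩
  rcases nsub' K hK A hn hAB with h | h | h
  · exact absurd h hA0
  · exact h
  · exact absurd h hneq

end

/-- The counterexample. -/
theorem counterexample : ∃ (G : Type) (_ : Group G) (_ : Finite G) (G1 G2 : Subgroup G)
    (_ : G1 ≤ G2) (_ : (G1.subgroupOf G2).Normal) (_ : G2.Normal),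
    Nat.card G1 = 3 ∧ IsSimpleGroup (G2 ⧸ G1.subgroupOf G2) ∧
    (¬ ∀ a b : G2 ⧸ G1.subgroupOf G2, a * b = b * a) ∧ Nat.card (G ⧸ G2) = 3 ∧
    (∀ (A B : Subgroup G) [(A.subgroupOf B).Normal] [B.Normal], A ≤ B →
        IsSimpleGroup A → IsSimpleGroup (B ⧸ A.subgroupOf B) → IsSimpleGroup (G ⧸ B) →
        A = G1 ∧ B = G2) ∧
    {F : GClass | IsSub G F}.Finite := by
  have h64 : Nat.card (GaloisField 2 6) = 64 := by
    rw [GaloisField.card 2 6 (by norm_num)]; norm_num
  have : Finite (GaloisField 2 6) := Nat.finite_of_card_ne_zero (by rw [h64]; norm_num)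
  exact ⟨GG (GaloisField 2 6), inferInstance, inferInstance, G1 _, G2 _, G1_le _, inferInstance,
    inferInstance, card_G1 _ h64, simple _, nonab _, card_quot _ h64,
    fun A B hA hB hAB sA sBA sGB => series _ h64 A B hA hB hAB sA sBA sGB,
    finite_GG _ h64⟩

end Pool.Agent.Form3
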