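import Pool.Agent.Form3.Twist

set_option autoImplicit false
set_option linter.unusedSectionVars false

namespace Pool.Agent.Form3

open scoped commutatorElement

/-- The hypotheses on `G` used in the abstract part. -/
structure Hyp (G : Type) [Group G] (G1 G2 : Subgroup G) : Prop where
  cent : ∀ z ∈ G1, ∀ g : G, g * z = z * g
  le : G1 ≤ G2
  perfect : ⁅G2, G2⁆ = G2
  comm : commutator G = G2
  nsub : ∀ N : Subgroup G, N.Normal → N ≤ G2 → N = ⊥ ∨ N = G1 ∨ N = G2
  cen : ∀ g : G, (∀ x ∈ G2, ⁅g, x⁆ ∈ G1) → g ∈ G1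
  mult : ∀ (S : Type) [Group S] [Finite S] (φ ψ : S →* G), Function.Surjective φ →
    Function.Surjective ψ → G1.comap φ = G1.comap ψ →
    ∀ x ∈ commutator S, φ x = 1 → ψ x = 1

lemma Hyp.normal1 {G : Type} [Group G] {G1 G2 : Subgroup G} (h : Hyp G G1 G2) : G1.Normal :=
  ⟨fun z hz g => by rw [h.cent z hz g]; simpa using hz⟩

lemma Hyp.normal2 {G : Type} [Group G] {G1 G2 : Subgroup G} (h : Hyp G G1 G2) : G2.Normal := by
  rw [← h.comm]; infer_instance

section struct

variable {G : Type} [Group G] [Finite G] {G1 G2 : Subgroup G} (h : Hyp G G1 G2)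
variable {S : Type} [Group S] [Finite S] {ι : Type} [Finite ι] (φ : ι → S →* G)

/-- the kernel of `S → G/G1` at coordinate `i` -/
def M (G1 : Subgroup G) (φ : ι → S →* G) (i : ι) : Subgroup S := G1.comap (φ i)

/-- intersection of the kernels different from the `i`-th one -/
def R (G1 : Subgroup G) (φ : ι → S →* G) (i : ι) : Subgroup S :=
  ⨅ j, ⨅ (_ : M G1 φ j ≠ M G1 φ i), M G1 φ j

/-- the component at coordinate `i` -/
def K (G1 : Subgroup G) (φ : ι → S →* G) (i : ι) : Subgroup S :=
  ⁅R G1 φ i, R G1 φ i⁆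

include h

lemma M_normal (i : ι) : (M G1 φ i).Normal := by
  have := h.normal1
  unfold M
  infer_instance

lemma R_normal (i : ι) : (R G1 φ i).Normal := by
  unfold R
  exact Subgroup.normal_iInf_normal
    (fun j => Subgroup.normal_iInf_normal (fun _ => M_normal h φ j))

lemma K_normal (i : ι) : (K G1 φ i).Normal := by
  have := R_normal h φ i
  unfold K
  infer_instance

omit h [Finite G] [Finite S] [Finite ι] in
lemma K_le_comm (i : ι) : K G1 φ i ≤ commutator S := by
  unfold K
  rw [commutator_def]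
  exact Subgroup.commutator_mono le_top le_top

omit [Finite G] [Finite S] [Finite ι] in
lemma K_other {i j : ι} (hij : M G1 φ j ≠ M G1 φ i) {x : S} (hx : x ∈ K G1 φ i) :
    φ j x = 1 := by
  have hle : K G1 φ i ≤ (φ j).ker := by
    unfold K
    rw [Subgroup.commutator_le]
    intro a ha b hb
    have ha' : φ j a ∈ G1 := by
      have : a ∈ M G1 φ j := by
        simp only [R, Subgroup.mem_iInf] at ha
        exact ha j hij
      exact this
    rw [MonoidHom.mem_ker, map_commutatorElement, commutatorElement_eq_one_iff_mul_comm]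
    exact (h.cent _ ha' _).symm
  exact hle hx

variable (hφ : ∀ i, Function.Surjective (φ i))
include hφ

lemma map_ge {i j : ι} (hij : M G1 φ j ≠ M G1 φ i) : G2 ≤ (M G1 φ j).map (φ i) := by
  have n1 := h.normal1
  have n2 := h.normal2
  have nM := M_normal h φ j
  have nU : ((M G1 φ j).map (φ i)).Normal := Subgroup.Normal.map nM (φ i) (hφ i)
  set U := (M G1 φ j).map (φ i) with hU
  have nI : (U ⊓ G2).Normal := inferInstance
  by_contra hcon
  have hle : U ⊓ G2 ≤ G1 := by
    rcases h.nsub (U ⊓ G2) nI inf_le_right with h0 | h0 | h0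
    · rw [h0]; exact bot_le
    · exact h0.le
    · exact absurd (inf_eq_right.1 h0) hcon
  have hU1 : U ≤ G1 := by
    intro u hu
    apply h.cen
    intro x hx
    apply hle
    refine ⟨?_, ?_⟩
    · rw [commutatorElement_def, mul_assoc, mul_assoc]
      refine U.mul_mem hu ?_
      rw [← mul_assoc]
      exact nU.conj_mem _ (U.inv_mem hu) x
    · rw [commutatorElement_def]
      exact G2.mul_mem (n2.conj_mem x hx u) (G2.inv_mem hx)
  have hMM : M G1 φ j ≤ M G1 φ i := by
    rw [hU, Subgroup.map_le_iff_le_comap] at hU1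
    exact hU1
  have e1 : (M G1 φ j).index = G1.index := Subgroup.index_comap_of_surjective _ (hφ j)
  have e2 : (M G1 φ i).index = G1.index := Subgroup.index_comap_of_surjective _ (hφ i)
  have e3 := Subgroup.relIndex_mul_index hMM
  rw [e1, e2] at e3
  have hpos : 0 < G1.index := Nat.pos_of_ne_zero Subgroup.index_ne_zero_of_finite
  have e4 : (M G1 φ j).relIndex (M G1 φ i) = 1 := by
    have : (M G1 φ j).relIndex (M G1 φ i) * G1.index = 1 * G1.index := by rw [e3, one_mul]
    exact Nat.eq_of_mul_eq_mul_right hpos this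
  rw [Subgroup.relIndex_eq_one] at e4
  exact hij (le_antisymm hMM e4)

lemma map_iInf_ge (i : ι) (s : Finset ι) (hs : ∀ j ∈ s, M G1 φ j ≠ M G1 φ i) :
    G2 ≤ (⨅ j ∈ s, M G1 φ j).map (φ i) := by
  classical
  induction s using Finset.induction_on with
  | empty =>
    simp only [Finset.notMem_empty, iInf_false, iInf_top]
    rw [← MonoidHom.range_eq_map, MonoidHom.range_eq_top.2 (hφ i)]
    exact le_top
  | insert a s ha ih =>
    rw [Finset.iInf_insert]
    have h1 := map_ge h φ hφ (hs a (by simp))
    have h2 := ih (fun j hj => hs j (by simp [hj]))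
    have na := M_normal h φ a
    have ns : (⨅ j ∈ s, M G1 φ j).Normal := Subgroup.normal_iInf_normal
      (fun j => Subgroup.normal_iInf_normal (fun _ => M_normal h φ j))
    calc G2 = ⁅G2, G2⁆ := h.perfect.symm
      _ ≤ ⁅(M G1 φ a).map (φ i), (⨅ j ∈ s, M G1 φ j).map (φ i)⁆ :=
        Subgroup.commutator_mono h1 h2
      _ = (⁅M G1 φ a, ⨅ j ∈ s, M G1 φ j⁆).map (φ i) := (Subgroup.map_commutator _ _ _).symm
      _ ≤ _ := Subgroup.map_mono (Subgroup.commutator_le_inf _ _)

lemma map_K (i : ι) : (K G1 φ i).map (φ i) = G2 := by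
  classical
  cases nonempty_fintype ι
  apply le_antisymm
  · rw [← h.comm, Subgroup.map_le_iff_le_comap]
    intro x hx
    have := K_le_comm φ i hx
    rw [Subgroup.mem_comap]
    have h2 : (commutator S).map (φ i) ≤ commutator G := by
      rw [commutator_def, commutator_def, Subgroup.map_commutator]
      exact Subgroup.commutator_mono le_top le_top
    exact h2 ⟨x, this, rfl⟩
  · have h1 : G2 ≤ (R G1 φ i).map (φ i) := by
      have := map_iInf_ge h φ hφ i (Finset.univ.filter (fun j => M G1 φ j ≠ M G1 φ i))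
        (by simp)
      refine this.trans (Subgroup.map_mono ?_)
      unfold R
      simp
    calc G2 = ⁅G2, G2⁆ := h.perfect.symm
      _ ≤ ⁅(R G1 φ i).map (φ i), (R G1 φ i).map (φ i)⁆ := Subgroup.commutator_mono h1 h1
      _ = (K G1 φ i).map (φ i) := (Subgroup.map_commutator _ _ _).symm

lemma comm_same {i j : ι} (hij : M G1 φ j = M G1 φ i) {x : S} (hx : x ∈ commutator S)
    (hxi : φ i x = 1) : φ j x = 1 :=
  h.mult S (φ i) (φ j) (hφ i) (hφ j) hij.symm x hx hxi

variable (hinj : ∀ x : S, (∀ i, φ i x = 1) → x = 1)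
include hinj

lemma K_inj (i : ι) {x : S} (hx : x ∈ K G1 φ i) (hxi : φ i x = 1) : x = 1 := by
  apply hinj
  intro j
  by_cases hij : M G1 φ j = M G1 φ i
  · exact comm_same h φ hφ hij (K_le_comm φ i hx) hxi
  · exact K_other h φ hij hx

lemma K_eq_of_M_eq {i j : ι} (hij : M G1 φ j = M G1 φ i) : K G1 φ j = K G1 φ i := by
  unfold K R
  rw [hij]

/-- the key description of `S'`. -/
lemma comm_mem (N : Subgroup S) (s : Finset ι) :
    ∀ x ∈ commutator S, (∀ i, i ∉ s → φ i x = 1) →
      (∀ i ∈ s, K G1 φ i ≤ N ∨ (φ i x ∈ G1 ∧ ∀ k ∈ K G1 φ i, φ i k ∈ G1 → k ∈ N)) → x ∈ N := by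
  classical
  induction s using Finset.induction_on with
  | empty =>
    intro x hx h1 _
    have : x = 1 := hinj x (fun i => h1 i (by simp))
    rw [this]; exact N.one_mem
  | insert a s ha ih =>
    intro x hx h1 h2
    -- choose `k`
    have hxa : φ a x ∈ G2 := by
      rw [← h.comm]
      have h2 : (commutator S).map (φ a) ≤ commutator G := by
        rw [commutator_def, commutator_def, Subgroup.map_commutator]
        exact Subgroup.commutator_mono le_top le_top
      exact h2 ⟨x, hx, rfl⟩
    rw [← map_K h φ hφ a] at hxa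
    obtain ⟨k, hk, hkx⟩ := hxa
    have hk' := K_le_comm φ a hk
    have hkN : k ∈ N := by
      rcases h2 a (by simp) with h3 | ⟨h3, h4⟩
      · exact h3 hk
      · exact h4 k hk (by rw [hkx]; exact h3)
    have hy : x * k⁻¹ ∈ commutator S := (commutator S).mul_mem hx ((commutator S).inv_mem hk')
    have hya : φ a (x * k⁻¹) = 1 := by rw [map_mul, map_inv, hkx, mul_inv_cancel]
    have hother : ∀ j, M G1 φ j ≠ M G1 φ a → φ j (x * k⁻¹) = φ j x := by
      intro j hj
      rw [map_mul, map_inv, K_other h φ hj hk]; simp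
    have hsame : ∀ j, M G1 φ j = M G1 φ a → φ j (x * k⁻¹) = 1 := fun j hj =>
      comm_same h φ hφ hj hy hya
    have := ih (x * k⁻¹) hy ?_ ?_
    · have h5 := N.mul_mem this hkN
      simpa using h5
    · intro j hj
      by_cases hja : M G1 φ j = M G1 φ a
      · exact hsame j hja
      · rw [hother j hja]
        apply h1
        intro hmem
        rcases Finset.mem_insert.1 hmem with h6 | h6
        · exact hja (by rw [h6])
        · exact hj h6
    · intro j hj
      rcases h2 j (by simp [hj]) with h3 | ⟨h3, h4⟩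
      · exact Or.inl h3
      · refine Or.inr ⟨?_, h4⟩
        by_cases hja : M G1 φ j = M G1 φ a
        · rw [hsame j hja]; exact G1.one_mem
        · rw [hother j hja]; exact h3

end struct

end Pool.Agent.Form3
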