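import Mathlib

set_option autoImplicit false

namespace Pool.Agent.Form3

open scoped commutatorElement

/-- transfer: a central element of order dividing `3` in a perfect group lies in the derived
subgroup of any subgroup of index prime to `3` which contains it. -/
lemma transfer_kill {E : Type} [Group E] [Finite E] (hE : commutator E = ⊤) (H : Subgroup E)
    (hidx : Nat.Coprime 3 H.index) (b : E) (hb : ∀ y : E, y * b = b * y) (hb3 : b ^ 3 = 1)
    (hbH : b ∈ H) : b ∈ ⁅H, H⁆ := by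
  let ϕ : H →* Abelianization H := Abelianization.of
  have key : ∀ (k : ℕ) (g₀ : E), g₀⁻¹ * b ^ k * g₀ ∈ H → g₀⁻¹ * b ^ k * g₀ = b ^ k := by
    intro k g₀ _
    have h1 : Commute g₀ b := hb g₀
    have h2 : Commute g₀ (b ^ k) := h1.pow_right k
    rw [mul_assoc, ← h2.eq, ← mul_assoc]; simp
  have h1 := MonoidHom.transfer_eq_pow ϕ b key
  have h2 : MonoidHom.transfer ϕ b = 1 := by
    have : commutator E ≤ (MonoidHom.transfer ϕ).ker := Abelianization.commutator_subset_ker _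
    rw [hE] at this
    exact this (Subgroup.mem_top b)
  rw [h2] at h1
  have h3 : (ϕ ⟨b, hbH⟩) ^ H.index = 1 := by
    rw [← map_pow, h1]; rfl
  have h4 : (ϕ ⟨b, hbH⟩) ^ 3 = 1 := by
    rw [← map_pow]
    have : (⟨b, hbH⟩ : H) ^ 3 = 1 := Subtype.ext hb3
    rw [this, map_one]
  have h5 : ϕ ⟨b, hbH⟩ = 1 := by
    have e1 := orderOf_dvd_of_pow_eq_one h3
    have e2 := orderOf_dvd_of_pow_eq_one h4
    have e3 := Nat.dvd_gcd e2 e1
    rw [hidx] at e3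
    exact orderOf_eq_one_iff.1 (Nat.dvd_one.1 e3)
  have h6 : (⟨b, hbH⟩ : H) ∈ commutator H := (QuotientGroup.eq_one_iff _).1 h5
  have h7 : (commutator H).map H.subtype = ⁅H, H⁆ := Subgroup.map_subtype_commutator H
  rw [← h7]
  exact ⟨_, h6, rfl⟩

/-- elements of the derived subgroup of an abelian-by-cyclic group. -/
lemma comm_abelian_cyclic {E : Type} [Group E] (T N : Subgroup E) (w : E)
    (hT : ∀ a ∈ T, ∀ b ∈ T, a * b = b * a) (hw : ∀ t ∈ T, w * t * w⁻¹ ∈ T)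
    (hN : ∀ x ∈ N, ∃ t ∈ T, ∃ k : ℕ, x = t * w ^ k) :
    ∀ x ∈ ⁅N, N⁆, ∃ t ∈ T, x = t * (w * t * w⁻¹)⁻¹ := by
  let Q : Subgroup E :=
    { carrier := {x | ∃ t ∈ T, x = t * (w * t * w⁻¹)⁻¹}
      one_mem' := ⟨1, T.one_mem, by simp⟩
      mul_mem' := by
        rintro _ _ ⟨t, ht, rfl⟩ ⟨u, hu, rfl⟩
        refine ⟨t * u, T.mul_mem ht hu, ?_⟩
        have h1 := hT _ (T.inv_mem (hw t ht)) u hu
        have h2 := hT _ (T.inv_mem (hw t ht)) _ (T.inv_mem (hw u hu))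
        calc t * (w * t * w⁻¹)⁻¹ * (u * (w * u * w⁻¹)⁻¹)
            = t * ((w * t * w⁻¹)⁻¹ * u) * (w * u * w⁻¹)⁻¹ := by group
          _ = t * u * ((w * t * w⁻¹)⁻¹ * (w * u * w⁻¹)⁻¹) := by rw [h1]; group
          _ = t * u * ((w * u * w⁻¹)⁻¹ * (w * t * w⁻¹)⁻¹) := by rw [h2]
          _ = _ := by group
      inv_mem' := by
        rintro _ ⟨t, ht, rfl⟩
        refine ⟨t⁻¹, T.inv_mem ht, ?_⟩
        have h1 := hT _ (hw t ht) _ (T.inv_mem ht)
        calc (t * (w * t * w⁻¹)⁻¹)⁻¹ = (w * t * w⁻¹) * t⁻¹ := by group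
          _ = t⁻¹ * (w * t * w⁻¹) := h1
          _ = _ := by group }
  have hQ : ∀ x, x ∈ Q ↔ ∃ t ∈ T, x = t * (w * t * w⁻¹)⁻¹ := fun _ => Iff.rfl
  have hQT : ∀ x ∈ Q, x ∈ T := by
    rintro _ ⟨t, ht, rfl⟩
    exact T.mul_mem ht (T.inv_mem (hw t ht))
  have hwk : ∀ k : ℕ, ∀ t ∈ T, w ^ k * t * (w ^ k)⁻¹ ∈ T := by
    intro k
    induction k with
    | zero => intro t ht; simpa using ht
    | succ k ih =>
      intro t ht
      have := hw _ (ih t ht)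
      have e : w ^ (k + 1) * t * (w ^ (k + 1))⁻¹ = w * (w ^ k * t * (w ^ k)⁻¹) * w⁻¹ := by
        rw [pow_succ']; group
      rw [e]; exact this
  have htel : ∀ k : ℕ, ∀ t ∈ T, t * (w ^ k * t * (w ^ k)⁻¹)⁻¹ ∈ Q := by
    intro k
    induction k with
    | zero => intro t ht; simp
    | succ k ih =>
      intro t ht
      have h1 := ih t ht
      have h2 : (w ^ k * t * (w ^ k)⁻¹) * (w * (w ^ k * t * (w ^ k)⁻¹) * w⁻¹)⁻¹ ∈ Q :=
        ⟨_, hwk k t ht, rfl⟩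
      have h3 := Q.mul_mem h1 h2
      have e : w ^ (k + 1) * t * (w ^ (k + 1))⁻¹ = w * (w ^ k * t * (w ^ k)⁻¹) * w⁻¹ := by
        rw [pow_succ']; group
      rw [e]
      have e2 : t * (w ^ k * t * (w ^ k)⁻¹)⁻¹ *
          (w ^ k * t * (w ^ k)⁻¹ * (w * (w ^ k * t * (w ^ k)⁻¹) * w⁻¹)⁻¹) =
          t * (w * (w ^ k * t * (w ^ k)⁻¹) * w⁻¹)⁻¹ := by group
      rw [e2] at h3
      exact h3
  have hle : ⁅N, N⁆ ≤ Q := by
    rw [Subgroup.commutator_le]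
    intro x hx y hy
    obtain ⟨a, ha, k, rfl⟩ := hN x hx
    obtain ⟨b, hb, l, rfl⟩ := hN y hy
    have h1 := htel l a ha
    have h2 := htel k b hb
    have h3 := Q.mul_mem h1 (Q.inv_mem h2)
    have e1 := hwk l a ha
    have e2 := hwk k b hb
    have c1 := hT _ (T.inv_mem e1) _ e2
    have hcomm : w ^ k * w ^ l = w ^ l * w ^ k := by rw [← pow_add, ← pow_add, add_comm]
    have e3 : ⁅a * w ^ k, b * w ^ l⁆ =
        a * (w ^ k * b * (w ^ k)⁻¹) * (w ^ l * a * (w ^ l)⁻¹)⁻¹ * b⁻¹ := by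
      rw [commutatorElement_def]
      calc a * w ^ k * (b * w ^ l) * (a * w ^ k)⁻¹ * (b * w ^ l)⁻¹
          = a * (w ^ k * b * (w ^ k)⁻¹) * (w ^ k * w ^ l) * (w ^ k)⁻¹ * a⁻¹ * (w ^ l)⁻¹ * b⁻¹ := by
            group
        _ = a * (w ^ k * b * (w ^ k)⁻¹) * (w ^ l * w ^ k) * (w ^ k)⁻¹ * a⁻¹ * (w ^ l)⁻¹ * b⁻¹ := by
            rw [hcomm]
        _ = _ := by group
    rw [e3]
    have e4 : a * (w ^ l * a * (w ^ l)⁻¹)⁻¹ * (b * (w ^ k * b * (w ^ k)⁻¹)⁻¹)⁻¹ =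
        a * (w ^ k * b * (w ^ k)⁻¹) * (w ^ l * a * (w ^ l)⁻¹)⁻¹ * b⁻¹ := by
      calc a * (w ^ l * a * (w ^ l)⁻¹)⁻¹ * (b * (w ^ k * b * (w ^ k)⁻¹)⁻¹)⁻¹
          = a * ((w ^ l * a * (w ^ l)⁻¹)⁻¹ * (w ^ k * b * (w ^ k)⁻¹)) * b⁻¹ := by group
        _ = a * ((w ^ k * b * (w ^ k)⁻¹) * (w ^ l * a * (w ^ l)⁻¹)⁻¹) * b⁻¹ := by rw [c1]
        _ = _ := by group
    rw [← e4]
    exact h3
  intro x hx
  exact hle hx

/-- the preimage of the torus is abelian. -/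
lemma torus_comm {E Q : Type} [Group E] [Group Q] (π : E →* Q) (hπ : Function.Surjective π)
    (hc : ∀ x ∈ π.ker, ∀ y : E, y * x = x * y) (h3 : ∀ x ∈ π.ker, x ^ 3 = 1)
    (a b s : Q) (hab : a * b = b * a) (hsa : s * a * s⁻¹ = a⁻¹) (hsb : s * b * s⁻¹ = a * b)
    (T : Subgroup Q) (hT : ∀ t ∈ T, ∃ i j : ℤ, t = a ^ i * b ^ j) :
    ∀ x ∈ T.comap π, ∀ y ∈ T.comap π, x * y = y * x := by
  obtain ⟨a', rfl⟩ := hπ a
  obtain ⟨b', rfl⟩ := hπ b
  obtain ⟨s', rfl⟩ := hπ s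
  have hcker : ⁅a', b'⁆ ∈ π.ker := by
    rw [MonoidHom.mem_ker, map_commutatorElement, commutatorElement_eq_one_iff_mul_comm]
    exact hab
  obtain ⟨z1, hz1, hs1⟩ : ∃ z ∈ π.ker, s' * a' * s'⁻¹ = a'⁻¹ * z :=
    ⟨a' * (s' * a' * s'⁻¹), by
      rw [MonoidHom.mem_ker, map_mul, map_mul, map_mul, map_inv, hsa, mul_inv_cancel], by group⟩
  obtain ⟨z2, hz2, hs2⟩ : ∃ z ∈ π.ker, s' * b' * s'⁻¹ = a' * b' * z :=
    ⟨(a' * b')⁻¹ * (s' * b' * s'⁻¹), by
      rw [MonoidHom.mem_ker, map_mul, map_mul, map_mul, map_inv, map_inv, hsb, map_mul,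
        inv_mul_cancel], by group⟩
  have hcent := hc _ hcker
  have e1 : ⁅a', b'⁆ = ⁅b', a'⁆ := by
    have h1 : s' * ⁅a', b'⁆ * s'⁻¹ = ⁅a', b'⁆ := by
      rw [hcent s']; group
    have h2 : s' * ⁅a', b'⁆ * s'⁻¹ = ⁅s' * a' * s'⁻¹, s' * b' * s'⁻¹⁆ := by
      simp only [commutatorElement_def]; group
    rw [← h1, h2, hs1, hs2]
    simp only [commutatorElement_def]
    have c1 := hc z1 hz1
    have c2 := hc z2 hz2
    calc a'⁻¹ * z1 * (a' * b' * z2) * (a'⁻¹ * z1)⁻¹ * (a' * b' * z2)⁻¹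
        = a'⁻¹ * (z1 * (a' * b' * z2)) * z1⁻¹ * a' * (z2⁻¹ * (a' * b')⁻¹) := by group
      _ = a'⁻¹ * ((a' * b' * z2) * z1) * z1⁻¹ * a' * (z2⁻¹ * (a' * b')⁻¹) := by rw [c1]
      _ = b' * (z2 * a') * z2⁻¹ * (a' * b')⁻¹ := by group
      _ = b' * (a' * z2) * z2⁻¹ * (a' * b')⁻¹ := by rw [c2]
      _ = b' * a' * b'⁻¹ * a'⁻¹ := by group
  have e2 : ⁅a', b'⁆ = 1 := by
    have h1 : ⁅a', b'⁆ ^ 2 = 1 := by
      rw [pow_two]
      nth_rewrite 2 [e1]
      simp only [commutatorElement_def]; group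
    have h2 := h3 _ hcker
    calc ⁅a', b'⁆ = ⁅a', b'⁆ ^ 3 * (⁅a', b'⁆ ^ 2)⁻¹ := by group
      _ = 1 := by rw [h1, h2]; simp
  have hcommab : Commute a' b' := commutatorElement_eq_one_iff_mul_comm.1 e2
  intro x hx y hy
  obtain ⟨i, j, hij⟩ := hT _ hx
  obtain ⟨k, l, hkl⟩ := hT _ hy
  obtain ⟨u, hu, hxu⟩ : ∃ u ∈ π.ker, x = a' ^ i * b' ^ j * u :=
    ⟨(a' ^ i * b' ^ j)⁻¹ * x, by
      rw [MonoidHom.mem_ker, map_mul, map_inv, hij, map_mul, map_zpow, map_zpow,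
        inv_mul_cancel], by group⟩
  obtain ⟨v, hv, hyv⟩ : ∃ u ∈ π.ker, y = a' ^ k * b' ^ l * u :=
    ⟨(a' ^ k * b' ^ l)⁻¹ * y, by
      rw [MonoidHom.mem_ker, map_mul, map_inv, hkl, map_mul, map_zpow, map_zpow,
        inv_mul_cancel], by group⟩
  have cu : ∀ t, Commute t u := fun t => hc u hu t
  have cv : ∀ t, Commute t v := fun t => hc v hv t
  have c1 : Commute (a' ^ i * b' ^ j) (a' ^ k * b' ^ l) := by
    have x1 : Commute (a' ^ i) (a' ^ k) := (Commute.refl a').zpow_zpow i k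
    have x2 : Commute (a' ^ i) (b' ^ l) := hcommab.zpow_zpow i l
    have x3 : Commute (b' ^ j) (a' ^ k) := hcommab.symm.zpow_zpow j k
    have x4 : Commute (b' ^ j) (b' ^ l) := (Commute.refl b').zpow_zpow j l
    exact (x1.mul_right x2).mul_left (x3.mul_right x4)
  rw [hxu, hyv]
  exact ((c1.mul_left (cu _).symm).mul_right ((cv _).mul_left (cv _))).eq

/-- In a perfect central extension, preimages of central elements are central. -/
lemma central_lift {E Q : Type} [Group E] [Group Q] (hE : commutator E = ⊤) (π : E →* Q)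
    (hc : ∀ x ∈ π.ker, ∀ y : E, y * x = x * y) (t : E)
    (ht : ∀ y : E, π y * π t = π t * π y) : ∀ y : E, y * t = t * y := by
  have hk : ∀ y : E, ⁅y, t⁆ ∈ π.ker := by
    intro y
    rw [MonoidHom.mem_ker, map_commutatorElement, commutatorElement_eq_one_iff_mul_comm]
    exact ht y
  let f : E →* Subgroup.center E :=
    { toFun := fun y => ⟨⁅y, t⁆, Subgroup.mem_center_iff.2 (hc _ (hk y))⟩
      map_one' := by ext; simp
      map_mul' := by
        intro y y'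
        ext
        simp only [Subgroup.coe_mul]
        have h1 := hc _ (hk y') 
        simp only [commutatorElement_def] at h1 ⊢
        calc y * y' * t * (y * y')⁻¹ * t⁻¹ = y * (y' * t * y'⁻¹ * t⁻¹) * (t * y⁻¹ * t⁻¹) := by
              group
          _ = (y' * t * y'⁻¹ * t⁻¹) * y * (t * y⁻¹ * t⁻¹) := by rw [h1]
          _ = (y' * t * y'⁻¹ * t⁻¹) * (y * t * y⁻¹ * t⁻¹) := by group
          _ = (y * t * y⁻¹ * t⁻¹) * (y' * t * y'⁻¹ * t⁻¹) := (h1 _).symm }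
  intro y
  have h1 : commutator E ≤ f.ker := by
    rw [commutator_def, Subgroup.commutator_le]
    intro a _ b _
    rw [MonoidHom.mem_ker, map_commutatorElement, commutatorElement_eq_one_iff_mul_comm]
    exact Subtype.ext (Subgroup.mem_center_iff.1 (f b).2 _)
  rw [hE] at h1
  have h2 : f y = 1 := h1 (Subgroup.mem_top y)
  have h3 : ⁅y, t⁆ = 1 := congrArg Subtype.val h2
  exact commutatorElement_eq_one_iff_mul_comm.1 h3

/-- The abstract vanishing statement (3-part of the multiplier). -/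
theorem univ_abstract {E Q : Type} [Group E] [Finite E] [Group Q] (hE : commutator E = ⊤)
    (π : E →* Q) (hπ : Function.Surjective π)
    (hc : ∀ x ∈ π.ker, ∀ y : E, y * x = x * y) (h3 : ∀ x ∈ π.ker, x ^ 3 = 1)
    (a b s w : Q) (hab : a * b = b * a) (hsa : s * a * s⁻¹ = a⁻¹) (hsb : s * b * s⁻¹ = a * b)
    (T N : Subgroup Q) (hT : ∀ t ∈ T, ∃ i j : ℤ, t = a ^ i * b ^ j)
    (hw : ∀ t ∈ T, w * t * w⁻¹ ∈ T)
    (hN : ∀ x ∈ N, ∃ t ∈ T, ∃ k : ℕ, x = t * w ^ k)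
    (hidx : Nat.Coprime 3 N.index)
    (hcen : ∀ t ∈ T, t * w = w * t → ∀ q : Q, q * t = t * q) : Function.Injective π := by
  rw [injective_iff_map_eq_one]
  intro x hx
  obtain ⟨w', rfl⟩ := hπ w
  have hxN : x ∈ N.comap π := by
    rw [Subgroup.mem_comap, hx]; exact N.one_mem
  have hidx' : Nat.Coprime 3 (N.comap π).index := by
    rw [Subgroup.index_comap_of_surjective _ hπ]; exact hidx
  have h1 := transfer_kill hE (N.comap π) hidx' x (hc x hx) (h3 x hx) hxN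
  have hTc := torus_comm π hπ hc h3 a b s hab hsa hsb T hT
  obtain ⟨t, ht, hxt⟩ := comm_abelian_cyclic (T.comap π) (N.comap π) w' hTc
    (by
      intro t ht
      rw [Subgroup.mem_comap] at ht ⊢
      rw [map_mul, map_mul, map_inv]
      exact hw _ ht)
    (by
      intro y hy
      obtain ⟨t, ht, k, hyk⟩ := hN _ hy
      refine ⟨y * (w' ^ k)⁻¹, ?_, k, by group⟩
      rw [Subgroup.mem_comap, map_mul, map_inv, map_pow, hyk]
      simpa using ht) x h1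
  have h2 : π t * π w' = π w' * π t := by
    have : π (t * (w' * t * w'⁻¹)⁻¹) = 1 := by rw [← hxt]; exact hx
    rw [map_mul, map_inv, map_mul, map_mul, map_inv, mul_inv_eq_one] at this
    nth_rewrite 1 [this]
    group
  have h4 := central_lift hE π hc t (fun y => hcen _ ht h2 (π y))
  rw [hxt, h4 w']
  group

end Pool.Agent.Form3
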