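import Pool.Agent.Form3.Closure

set_option autoImplicit false

namespace Pool.Agent.Form3

/-- The twisting lemma: if `H` contains a normal copy `γ(G2)` of `G2` on which `H` acts
through `θ : H → G/G1` as `G` does, then `G` lies in every formation containing `H`
(provided that `G` has an automorphism `α` inverting `G1` and trivial on `G/G2`). -/
lemma twist {G : Type} [Group G] {F : GClass} (hF : IsSub G F)
    (G1 G2 : Subgroup G) [G1.Normal] [G2.Normal]
    (α : G ≃* G) (hα1 : ∀ z ∈ G1, α z = z⁻¹) (hα2 : ∀ g, g⁻¹ * α g ∈ G2)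
    (h2 : ∀ z ∈ G1, z * z = 1 → z = 1)
    {H : Type} [Group H] (h : F H)
    (γ : G2 →* H) (hγ : Function.Injective γ)
    (θ : H →* G ⧸ G1) (hθ : Function.Surjective θ)
    (hθγ : ∀ x : G2, θ (γ x) = ((x : G) : G ⧸ G1))
    (hconj : ∀ (h : H) (g : G), θ h = (g : G ⧸ G1) → ∀ x : G2, ∀ y : G2,
      (y : G) = g * x * g⁻¹ → h * γ x * h⁻¹ = γ y) : F G := by
  classical
  let W : Subgroup (H × G) := MonoidHom.eqLocus (θ.comp (MonoidHom.fst H G))
    ((QuotientGroup.mk' G1).comp (MonoidHom.snd H G))
  have hW : ∀ w : H × G, w ∈ W ↔ θ w.1 = (w.2 : G ⧸ G1) := fun w => Iff.rfl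
  let c : G → G2 := fun g => ⟨g⁻¹ * α g, hα2 g⟩
  let μ : W →* H :=
    { toFun := fun w => w.1.1 * γ (c w.1.2)
      map_one' := by
        have : c 1 = 1 := by ext; simp [c]
        simp [this]
      map_mul' := by
        rintro ⟨⟨a, g⟩, hg⟩ ⟨⟨b, k⟩, hk⟩
        have hk' : θ b = (k : G ⧸ G1) := hk
        have hcc : ∀ y : G2, (y : G) = k⁻¹ * (c g : G) * k → γ (c g) * b = b * γ y := by
          intro y hy
          have := hconj b k hk' y (c g) (by rw [hy]; group)
          rw [← this]; group
        have hmem : k⁻¹ * (c g : G) * k ∈ G2 := by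
          have := (inferInstance : G2.Normal).conj_mem (c g : G) (c g).2 k⁻¹
          simpa using this
        change a * b * γ (c (g * k)) = a * γ (c g) * (b * γ (c k))
        have e1 := hcc ⟨_, hmem⟩ rfl
        have e2 : c (g * k) = ⟨_, hmem⟩ * c k := by
          ext
          simp only [c, Subgroup.coe_mul, map_mul]
          group
        rw [e2, map_mul]
        calc a * b * (γ ⟨_, hmem⟩ * γ (c k)) = a * (b * γ ⟨_, hmem⟩) * γ (c k) := by group
          _ = a * (γ (c g) * b) * γ (c k) := by rw [e1]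
          _ = _ := by group }
  have hμ : ∀ w : W, μ w = w.1.1 * γ (c w.1.2) := fun _ => rfl
  let p1 : W →* H := (MonoidHom.fst H G).comp W.subtype
  let p2 : W →* G := (MonoidHom.snd H G).comp W.subtype
  have hp1 : Function.Surjective p1 := by
    intro x
    obtain ⟨g, hg⟩ := QuotientGroup.mk_surjective (θ x)
    exact ⟨⟨(x, g), hg.symm⟩, rfl⟩
  have hp2 : Function.Surjective p2 := by
    intro g
    obtain ⟨x, hx⟩ := hθ (g : G ⧸ G1)
    exact ⟨⟨(x, g), hx⟩, rfl⟩
  have hμs : Function.Surjective μ := by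
    intro x
    obtain ⟨g', hg'⟩ := QuotientGroup.mk_surjective (θ x)
    set g := α.symm g' with hg
    have hαg : α g = g' := by simp [hg]
    refine ⟨⟨(x * (γ (c g))⁻¹, g), ?_⟩, ?_⟩
    · rw [hW]
      change θ (x * (γ (c g))⁻¹) = (g : G ⧸ G1)
      rw [map_mul, map_inv, hθγ, ← hg', ← QuotientGroup.mk_inv, ← QuotientGroup.mk_mul]
      congr 1
      simp only [c, hαg]
      group
    · rw [hμ]
      simp
  have hFW : F W := by
    refine hF.fam_hom (Finset.univ : Finset Bool) Finset.univ_nonempty (fun _ => H)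
      (fun b => if b then p1 else μ) ?_ (fun _ _ => h) ?_
    · intro b
      cases b
      · simpa using hμs
      · simpa using hp1
    · intro w hw
      have e1 : p1 w = 1 := by simpa using hw true (Finset.mem_univ _)
      have e2 : μ w = 1 := by simpa using hw false (Finset.mem_univ _)
      have e1' : w.1.1 = 1 := e1
      rw [hμ, e1', one_mul] at e2
      have e3 : c w.1.2 = 1 := hγ (by rw [e2, map_one])
      have e4 : w.1.2⁻¹ * α w.1.2 = 1 := congrArg Subtype.val e3
      have e5 : w.1.2 ∈ G1 := by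
        have := (hW w.1).1 w.2
        rw [e1', map_one] at this
        exact (QuotientGroup.eq_one_iff _).1 this.symm
      rw [hα1 _ e5] at e4
      have e6 : w.1.2 = 1 := by
        apply h2 _ e5
        rw [← mul_inv_rev, inv_eq_one] at e4
        exact e4
      apply Subtype.ext
      exact Prod.ext e1' e6
  exact hF.surj p2 hp2 hFW

end Pool.Agent.Form3
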